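import Mathlib

/-!
A complex polynomial of degree at least two has a cycle which avoids a given finite set.
-/

set_option autoImplicit false

namespace Pool.Agent.T2H63.DML

open Polynomial

theorem eval_iter (g : ℂ[X]) (n : ℕ) (x : ℂ) :
    (g.comp^[n] X).eval x = (fun y => g.eval y)^[n] x := by
  rw [iterate_comp_eval, eval_X]

/-- the multiplier of an iterate at a fixed point -/
theorem deriv_iter {h : ℂ[X]} {x : ℂ} (hx : h.eval x = x) (n : ℕ) :
    (derivative (h.comp^[n] X)).eval x = (derivative h).eval x ^ n := by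
  induction n with
  | zero => simp
  | succ n ih =>
    have h1 : h.comp^[n + 1] X = h.comp (h.comp^[n] X) := Function.iterate_succ_apply' _ _ _
    have h2 : (h.comp^[n] X).eval x = x := by
      rw [eval_iter]
      exact Function.iterate_fixed hx n
    rw [h1, derivative_comp, eval_mul, eval_comp, h2, ih, pow_succ]

/-- a polynomial of degree at least two has two fixed points of the second iterate one of which is
not fixed, or a fixed point of multiplier `-1` -/
theorem exists_minus_one {h : ℂ[X]} (hd : 2 ≤ h.natDegree)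
    (hper : ∀ x, h.eval (h.eval x) = x → h.eval x = x) :
    ∃ x, h.eval x = x ∧ (derivative h).eval x = -1 := by
  set u : ℂ[X] := h - X with hu
  obtain ⟨k, hk⟩ := binomExpansion (u.map C) X u
  have e1 : (u.map C).eval (X + u) = u.comp h := by
    rw [eval_map, show (X : ℂ[X]) + u = h by rw [hu]; ring]
    rfl
  have e2 : (u.map C).eval X = u := by
    rw [eval_map, eval₂_C_X]
  have e3 : (derivative (u.map C)).eval X = derivative u := by
    rw [derivative_map, eval_map, eval₂_C_X]
  rw [e1, e2, e3] at hk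
  have h1 : h.comp h - X = u * (2 + derivative u + k * u) := by
    have h2 : h.comp h - X = u.comp h + u := by
      rw [hu, sub_comp, X_comp]
      ring
    rw [h2, hk]
    ring
  -- degrees
  have hdeg : (h.comp h - X).natDegree = h.natDegree * h.natDegree := by
    rw [natDegree_sub_eq_left_of_natDegree_lt, natDegree_comp]
    rw [natDegree_comp, natDegree_X]
    nlinarith
  have hdu : u.natDegree = h.natDegree := by
    rw [hu, natDegree_sub_eq_left_of_natDegree_lt]
    rw [natDegree_X]
    omega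
  set v : ℂ[X] := 2 + derivative u + k * u with hv
  have hu0 : u ≠ 0 := by
    intro h0
    rw [h0, natDegree_zero] at hdu
    omega
  have hv0 : v ≠ 0 := by
    intro h0
    rw [h0, mul_zero] at h1
    rw [h1, natDegree_zero] at hdeg
    have : 0 < h.natDegree * h.natDegree := by positivity
    omega
  have hdv : 0 < v.degree := by
    rw [← natDegree_pos_iff_degree_pos]
    rw [h1, natDegree_mul hu0 hv0, hdu] at hdeg
    nlinarith
  obtain ⟨x, hx⟩ := Complex.exists_root hdv
  have hx' : v.eval x = 0 := hx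
  have h3 : (h.comp h - X).eval x = 0 := by
    rw [h1, eval_mul, hx', mul_zero]
  rw [eval_sub, eval_comp, eval_X, sub_eq_zero] at h3
  have h4 := hper x h3
  refine ⟨x, h4, ?_⟩
  have h5 : u.eval x = 0 := by rw [hu, eval_sub, eval_X, h4, sub_self]
  rw [hv, eval_add, eval_add, eval_mul, h5, mul_zero, add_zero, hu, derivative_sub, derivative_X,
    eval_sub, eval_one] at hx'
  have h6 : (2 : ℂ[X]).eval x = 2 := by
    have : (2 : ℂ[X]) = C 2 := (map_ofNat C 2).symm
    rw [this, eval_C]
  rw [h6] at hx'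
  linear_combination hx'

theorem iter_mul (g : ℂ[X]) (m n : ℕ) :
    (g.comp^[m] X).comp^[n] X = g.comp^[m * n] X := by
  apply Polynomial.funext
  intro x
  rw [eval_iter, eval_iter, Function.iterate_mul]
  congr 1
  funext y
  exact eval_iter g m y

theorem natDegree_iter (g : ℂ[X]) (n : ℕ) : (g.comp^[n] X).natDegree = g.natDegree ^ n := by
  induction n with
  | zero => simp
  | succ n ih =>
    rw [Function.iterate_succ_apply', natDegree_comp, ih, pow_succ]
    ring

/-- the set of the periodic points is infinite -/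
theorem periodic_infinite {g : ℂ[X]} (hd : 2 ≤ g.natDegree) :
    {x : ℂ | ∃ n : ℕ, 0 < n ∧ (fun y => g.eval y)^[n] x = x}.Infinite := by
  classical
  intro hfin
  -- a common period
  obtain ⟨M, hM, hMP⟩ : ∃ M : ℕ, 0 < M ∧ ∀ x ∈ {x : ℂ | ∃ n : ℕ, 0 < n ∧ (fun y => g.eval y)^[n] x = x},
      (fun y => g.eval y)^[M] x = x := by
    have h1 : ∀ x : hfin.toFinset, ∃ n : ℕ, 0 < n ∧ (fun y => g.eval y)^[n] (x : ℂ) = x := by
      intro x
      exact (Set.Finite.mem_toFinset hfin).1 x.2
    choose n hn hn' using h1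
    refine ⟨∏ x, n x, Finset.prod_pos fun x _ => hn x, fun x hx => ?_⟩
    have h2 : x ∈ hfin.toFinset := (Set.Finite.mem_toFinset hfin).2 hx
    obtain ⟨c, hc⟩ := Finset.dvd_prod_of_mem n (Finset.mem_univ (⟨x, h2⟩ : hfin.toFinset))
    rw [hc, Function.iterate_mul]
    exact Function.iterate_fixed (hn' ⟨x, h2⟩) c
  set g1 := g.comp^[M] X with hg1
  have hfix1 : ∀ x ∈ {x : ℂ | ∃ n : ℕ, 0 < n ∧ (fun y => g.eval y)^[n] x = x}, g1.eval x = x := by
    intro x hx
    rw [hg1, eval_iter]
    exact hMP x hx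
  -- the multipliers
  obtain ⟨N, hN, hNP⟩ : ∃ N : ℕ, 0 < N ∧
      ∀ x ∈ {x : ℂ | ∃ n : ℕ, 0 < n ∧ (fun y => g.eval y)^[n] x = x},
        (derivative g1).eval x ^ N ≠ -1 := by
    have h1 : ∀ x : hfin.toFinset, ∃ n : ℕ, 0 < n ∧
        ((∃ m, 0 < m ∧ (derivative g1).eval (x : ℂ) ^ m = 1) → (derivative g1).eval (x : ℂ) ^ n = 1) := by
      intro x
      by_cases h : ∃ m, 0 < m ∧ (derivative g1).eval (x : ℂ) ^ m = 1
      · obtain ⟨m, hm, hm'⟩ := h
        exact ⟨m, hm, fun _ => hm'⟩
      · exact ⟨1, one_pos, fun h' => absurd h' h⟩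
    choose n hn hn' using h1
    refine ⟨∏ x, n x, Finset.prod_pos fun x _ => hn x, fun x hx h3 => ?_⟩
    have h2 : x ∈ hfin.toFinset := (Set.Finite.mem_toFinset hfin).2 hx
    have h4 : ∃ m, 0 < m ∧ (derivative g1).eval x ^ m = 1 :=
      ⟨(∏ x, n x) * 2, by
        have := Finset.prod_pos (s := Finset.univ) fun x _ => hn x
        positivity, by rw [pow_mul, h3]; norm_num⟩
    have h5 := hn' ⟨x, h2⟩ h4
    obtain ⟨c, hc⟩ := Finset.dvd_prod_of_mem n (Finset.mem_univ (⟨x, h2⟩ : hfin.toFinset))
    rw [hc, pow_mul, h5, one_pow] at h3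
    norm_num at h3
  set h := g1.comp^[N] X with hh
  have hh' : h = g.comp^[M * N] X := by rw [hh, hg1, iter_mul]
  have hdh : 2 ≤ h.natDegree := by
    rw [hh', natDegree_iter]
    calc 2 ≤ g.natDegree := hd
      _ = g.natDegree ^ 1 := (pow_one _).symm
      _ ≤ g.natDegree ^ (M * N) := Nat.pow_le_pow_right (by omega) (Nat.mul_pos hM hN)
  have hfix : ∀ x ∈ {x : ℂ | ∃ n : ℕ, 0 < n ∧ (fun y => g.eval y)^[n] x = x}, h.eval x = x := by
    intro x hx
    rw [hh, eval_iter]
    exact Function.iterate_fixed (hfix1 x hx) N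
  obtain ⟨x, hx1, hx2⟩ := exists_minus_one hdh (by
    intro x hx
    apply hfix
    refine ⟨M * N * 2, by positivity, ?_⟩
    rw [hh', eval_iter, eval_iter, ← Function.iterate_add_apply] at hx
    rw [mul_two]
    exact hx)
  have hxP : x ∈ {x : ℂ | ∃ n : ℕ, 0 < n ∧ (fun y => g.eval y)^[n] x = x} := by
    refine ⟨M * N, by positivity, ?_⟩
    rw [← eval_iter, ← hh']
    exact hx1
  apply hNP x hxP
  rw [← deriv_iter (hfix1 x hxP) N, ← hh]
  exact hx2

/-- a cycle which avoids a finite set -/
theorem exists_cycle {g : ℂ[X]} (hd : 2 ≤ g.natDegree) {B : Set ℂ} (hB : B.Finite) :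
    ∃ (x : ℂ) (m : ℕ), 0 < m ∧ (fun y => g.eval y)^[m] x = x ∧
      ∀ n, (fun y => g.eval y)^[n] x ∉ B := by
  classical
  by_contra hcon
  push Not at hcon
  apply periodic_infinite hd
  -- every periodic point is in the orbit of a periodic element of `B`
  have h1 : ∀ b : ℂ, {x | (∃ m : ℕ, 0 < m ∧ (fun y => g.eval y)^[m] x = x) ∧
      ∃ n, (fun y => g.eval y)^[n] x = b}.Finite := by
    intro b
    by_cases hb : ∃ m : ℕ, 0 < m ∧ (fun y => g.eval y)^[m] b = b
    · obtain ⟨m, hm, hmb⟩ := hb
      refine Set.Finite.subset ((Finset.range m).image fun i => (fun y => g.eval y)^[i] b).finite_toSet ?_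
      rintro x ⟨⟨l, hl, hlx⟩, n, hn⟩
      -- `x = f^(l n - n) (b)`
      have h2 : (fun y => g.eval y)^[l * n - n] b = x := by
        rw [← hn, ← Function.iterate_add_apply,
          Nat.sub_add_cancel (Nat.le_mul_of_pos_left n hl), Function.iterate_mul]
        exact Function.iterate_fixed hlx n
      rw [Finset.coe_image]
      refine ⟨(l * n - n) % m, Finset.mem_coe.2 (Finset.mem_range.2 (Nat.mod_lt _ hm)), ?_⟩
      show (fun y => g.eval y)^[(l * n - n) % m] b = x
      have h3 : (fun y => g.eval y)^[(l * n - n) % m] b = (fun y => g.eval y)^[l * n - n] b := by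
        conv_rhs => rw [← Nat.mod_add_div (l * n - n) m, Function.iterate_add_apply,
          Function.iterate_mul]
        rw [Function.iterate_fixed hmb]
      rw [h3, h2]
    · convert Set.finite_empty
      ext x
      simp only [Set.mem_ofPred_eq, Set.mem_empty_iff_false, iff_false]
      rintro ⟨⟨l, hl, hlx⟩, n, hn⟩
      apply hb
      refine ⟨l, hl, ?_⟩
      rw [← hn, ← Function.iterate_add_apply, add_comm, Function.iterate_add_apply, hlx]
  refine Set.Finite.subset (hB.biUnion fun b _ => h1 b) ?_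
  rintro x ⟨m, hm, hmx⟩
  obtain ⟨n, hn⟩ := hcon x m hm hmx
  rw [Set.mem_iUnion₂]
  exact ⟨_, hn, ⟨m, hm, hmx⟩, n, rfl⟩

end Pool.Agent.T2H63.DML
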