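import Pool.Agent.T2H63.DML.Small
import Pool.Agent.T2H63.DML.Per
import Pool.Agent.Y741.UnitNF

/-!
For a polynomial of degree at least two, a finite set `S` and a point `x` whose orbit meets `S`
finitely often there is an embedding into the algebraic closure of some `ℚ_p` such that the orbit of
`x` modulo `p` finally avoids `S`.
-/

set_option autoImplicit false

namespace Pool.Agent.T2H63.DML

open Polynomial Pool.Agent.H936R2 Pool.Agent.TH838.PR Pool.Agent.Y199.DM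

section close

variable {p : ℕ} [hp : Fact p.Prime] (τ : ℂ →+* PadicAlgCl p)

theorem sum_le {κ : Type} (s : Finset κ) (f : κ → PadicAlgCl p) {c : ℝ} (hc : 0 ≤ c)
    (h : ∀ i ∈ s, ‖f i‖ ≤ c) : ‖∑ i ∈ s, f i‖ ≤ c :=
  IsUltrametricDist.norm_sum_le_of_forall_le_of_nonneg hc h

theorem norm_eval_le {q : ℂ[X]} (hq : ∀ i, ‖τ (q.coeff i)‖ ≤ 1) {a : ℂ} (ha : ‖τ a‖ ≤ 1) :
    ‖τ (q.eval a)‖ ≤ 1 := by
  rw [eval_eq_sum_range, map_sum]
  refine sum_le _ _ zero_le_one fun i _ => ?_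
  rw [map_mul, map_pow, norm_mul, norm_pow]
  exact mul_le_one₀ (hq i) (by positivity) (pow_le_one₀ (norm_nonneg _) ha)

theorem norm_eval_sub {q : ℂ[X]} (hq : ∀ i, ‖τ (q.coeff i)‖ ≤ 1) {a b : ℂ} (ha : ‖τ a‖ ≤ 1)
    (hb : ‖τ b‖ ≤ 1) : ‖τ (q.eval a - q.eval b)‖ ≤ ‖τ (a - b)‖ := by
  rw [eval_eq_sum_range, eval_eq_sum_range, ← Finset.sum_sub_distrib, map_sum]
  refine sum_le _ _ (norm_nonneg _) fun i _ => ?_
  have h1 : q.coeff i * a ^ i - q.coeff i * b ^ i =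
      q.coeff i * ((∑ j ∈ Finset.range i, a ^ j * b ^ (i - 1 - j)) * (a - b)) := by
    rw [geom_sum₂_mul]
    ring
  rw [h1, map_mul, map_mul, norm_mul, norm_mul, ← mul_assoc]
  refine mul_le_of_le_one_left (norm_nonneg _) (mul_le_one₀ (hq i) (norm_nonneg _) ?_)
  rw [map_sum]
  refine sum_le _ _ zero_le_one fun j _ => ?_
  rw [map_mul, map_pow, map_pow, norm_mul, norm_pow, norm_pow]
  exact mul_le_one₀ (pow_le_one₀ (norm_nonneg _) ha) (by positivity)
    (pow_le_one₀ (norm_nonneg _) hb)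

theorem iter_close {q : ℂ[X]} (hq : ∀ i, ‖τ (q.coeff i)‖ ≤ 1) {a b : ℂ} (ha : ‖τ a‖ ≤ 1)
    (hb : ‖τ b‖ ≤ 1) (hab : ‖τ (a - b)‖ < 1) (n : ℕ) :
    ‖τ ((fun y => q.eval y)^[n] a)‖ ≤ 1 ∧ ‖τ ((fun y => q.eval y)^[n] b)‖ ≤ 1 ∧
      ‖τ ((fun y => q.eval y)^[n] a - (fun y => q.eval y)^[n] b)‖ < 1 := by
  induction n with
  | zero => exact ⟨ha, hb, hab⟩
  | succ n ih =>
    rw [Function.iterate_succ_apply', Function.iterate_succ_apply']
    exact ⟨norm_eval_le τ hq ih.1, norm_eval_le τ hq ih.2.1,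
      (norm_eval_sub τ hq ih.1 ih.2.1).trans_lt ih.2.2⟩

theorem norm_one_of {a : ℂ} (ha : a ≠ 0) (h1 : ‖τ a‖ ≤ 1) (h2 : ‖τ a⁻¹‖ ≤ 1) : ‖τ a‖ = 1 := by
  refine le_antisymm h1 ?_
  have h3 : ‖τ a‖ * ‖τ a⁻¹‖ = 1 := by
    rw [← norm_mul, ← map_mul, mul_inv_cancel₀ ha, map_one, norm_one]
  nlinarith [norm_nonneg (τ a), norm_nonneg (τ a⁻¹)]

theorem norm_one_of_close {a b : ℂ} (hb : ‖τ b‖ = 1) (h : ‖τ (a - b)‖ < 1) : ‖τ a‖ = 1 := by
  have h1 : ‖τ (a - b)‖ < ‖τ b‖ := by rw [hb]; exact h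
  have h2 : τ a = τ (a - b) + τ b := by rw [← map_add]; congr 1; ring
  rw [h2, IsUltrametricDist.norm_add_eq_max_of_norm_ne_norm h1.ne, max_eq_right h1.le, hb]

/-- If the image of the orbit of `a` comes near to the orbit of `b`, which finally avoids `S`, then
the image of the orbit of `a` finally avoids `S`. -/
theorem avoid_of_close {q : ℂ[X]} (hq : ∀ i, ‖τ (q.coeff i)‖ ≤ 1) {S : Finset ℂ}
    (hS : ∀ s ∈ S, ‖τ s‖ ≤ 1) {a b : ℂ}
    (ha : ‖τ a‖ ≤ 1) (hb : ‖τ b‖ ≤ 1) (hab : ‖τ (a - b)‖ < 1) (n0 : ℕ)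
    (hn0 : ∀ n, n0 ≤ n → ∀ s ∈ S, (fun y => q.eval y)^[n] b ≠ s)
    (hinv : ∀ n, n0 ≤ n → ∀ s ∈ S, ‖τ ((fun y => q.eval y)^[n] b - s)⁻¹‖ ≤ 1) (n : ℕ)
    (hn : n0 ≤ n) (s : ℂ) (hs : s ∈ S) : ‖τ ((fun y => q.eval y)^[n] a - s)‖ = 1 := by
  obtain ⟨h1, h2, h3⟩ := iter_close τ hq ha hb hab n
  refine norm_one_of_close τ (b := (fun y => q.eval y)^[n] b - s) ?_ ?_
  · refine norm_one_of τ (sub_ne_zero.2 (hn0 n hn s hs)) ?_ (hinv n hn s hs)
    rw [map_sub]
    exact (norm_sub_le_max' _ _).trans (max_le h2 (hS s hs))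
  · rwa [sub_sub_sub_cancel_right]

end close

/-- the finite set of all `(c - s)⁻¹` with `c` in a finite orbit and `s` in `S` -/
theorem exists_inv_set (f : ℂ → ℂ) (b : ℂ) (hfin : (Set.range fun n => f^[n] b).Finite)
    (S : Finset ℂ) : ∃ T : Finset ℂ, (∀ n, f^[n] b ∈ T) ∧ ∀ n, ∀ s ∈ S, (f^[n] b - s)⁻¹ ∈ T := by
  classical
  refine ⟨hfin.toFinset ∪ Finset.image₂ (fun c s => (c - s)⁻¹) hfin.toFinset S, fun n => ?_,
    fun n s hs => ?_⟩
  · apply Finset.mem_union_left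
    rw [Set.Finite.mem_toFinset]
    exact ⟨n, rfl⟩
  · apply Finset.mem_union_right
    rw [Finset.mem_image₂]
    refine ⟨f^[n] b, ?_, s, hs, rfl⟩
    rw [Set.Finite.mem_toFinset]
    exact ⟨n, rfl⟩

theorem range_finite_of_eq {f : ℂ → ℂ} {b : ℂ} {m n : ℕ} (hmn : m < n) (h : f^[m] b = f^[n] b) :
    (Set.range fun n => f^[n] b).Finite := by
  classical
  refine Set.Finite.subset ((Finset.range n).image fun i => f^[i] b).finite_toSet ?_
  rintro _ ⟨k, rfl⟩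
  rw [Finset.coe_image]
  induction k using Nat.strong_induction_on with
  | _ k ih =>
    by_cases hk : k < n
    · exact ⟨k, Finset.mem_coe.2 (Finset.mem_range.2 hk), rfl⟩
    · have h1 : f^[k] b = f^[k - n + m] b := by
        conv_lhs => rw [show k = k - n + n by omega, Function.iterate_add_apply, ← h,
          ← Function.iterate_add_apply]
      beta_reduce
      rw [h1]
      exact ih _ (by omega)

theorem iterate_mem {T : Set ℂ} {g : ℂ[X]} (hg : ∀ i, g.coeff i ∈ Subring.closure T) {x : ℂ}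
    (hx : x ∈ Subring.closure T) (n : ℕ) : (fun y => g.eval y)^[n] x ∈ Subring.closure T := by
  induction n with
  | zero => exact hx
  | succ n ih =>
    rw [Function.iterate_succ_apply']
    rw [eval_eq_sum_range]
    exact Subring.sum_mem _ fun i _ => Subring.mul_mem _ (hg i) (Subring.pow_mem _ ih _)

theorem coeff_mem {T : Finset ℂ} {g : ℂ[X]} (hg : ∀ i ∈ g.support, g.coeff i ∈ T) (i : ℕ) :
    g.coeff i ∈ Subring.closure (T : Set ℂ) := by
  by_cases h : i ∈ g.support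
  · exact Subring.subset_closure (Finset.mem_coe.2 (hg i h))
  · rw [notMem_support_iff.1 h]
    exact Subring.zero_mem _

theorem norm_le_of_closure {p : ℕ} [hp : Fact p.Prime] {τ : ℂ →+* PadicAlgCl p} {T : Finset ℂ}
    (hτ : ∀ t ∈ T, ‖τ t‖ ≤ 1) {a : ℂ} (ha : a ∈ Subring.closure (T : Set ℂ)) : ‖τ a‖ ≤ 1 := by
  have h1 : Subring.closure (T : Set ℂ) ≤ (unitBall (PadicAlgCl p)).comap τ := by
    rw [Subring.closure_le]
    intro t ht
    exact hτ t (Finset.mem_coe.1 ht)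
  exact h1 ha

/-- The wandering case. -/
theorem base_wandering (T₀ : Finset ℂ) {g : ℂ[X]} (hg : 2 ≤ g.natDegree) (S : Finset ℂ) (x : ℂ)
    (hinj : Function.Injective fun n => (fun y => g.eval y)^[n] x) :
    ∃ (p : ℕ) (_ : Fact p.Prime) (τ : ℂ →+* PadicAlgCl p), (∀ t ∈ T₀, ‖τ t‖ ≤ 1) ∧
      ∃ n₁, ∀ n, n₁ ≤ n → ∀ s ∈ S, ‖τ ((fun y => g.eval y)^[n] x - s)‖ = 1 := by
  classical
  set f : ℂ → ℂ := fun y => g.eval y with hf
  have hg0 : derivative g ≠ 0 := by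
    intro h0
    have := derivative_eq_zero.1 h0
    omega
  obtain ⟨ξ, m, hm, hξ, hav⟩ := exists_cycle hg (B := (S : Set ℂ) ∪ {z | (derivative g).IsRoot z})
    (S.finite_toSet.union (finite_setOfPred_isRoot hg0))
  -- another preimage
  obtain ⟨ζ, hζ1, hζ2⟩ : ∃ ζ, ζ ≠ ξ ∧ g.eval ζ = g.eval ξ := by
    have h1 : (g - C (g.eval ξ)).IsRoot ξ := by simp
    obtain ⟨q, hq⟩ := dvd_iff_isRoot.2 h1
    have hd : (g - C (g.eval ξ)).natDegree = g.natDegree := natDegree_sub_C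
    have hq0 : q ≠ 0 := by
      rintro rfl
      rw [mul_zero] at hq
      rw [hq, natDegree_zero] at hd
      omega
    have hdq : 0 < q.degree := by
      rw [← natDegree_pos_iff_degree_pos]
      rw [hq, natDegree_mul (X_sub_C_ne_zero ξ) hq0, natDegree_X_sub_C] at hd
      omega
    obtain ⟨ζ, hζ⟩ := Complex.exists_root hdq
    refine ⟨ζ, ?_, ?_⟩
    · rintro rfl
      have h2 : (derivative (g - C (g.eval ζ))).eval ζ = 0 := by
        rw [hq, derivative_mul, eval_add, eval_mul, eval_mul, hζ.eq_zero]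
        simp
      rw [derivative_sub, derivative_C, sub_zero] at h2
      exact hav 0 (Or.inr h2)
    · have h2 : (g - C (g.eval ξ)).eval ζ = 0 := by
        rw [hq, eval_mul, hζ.eq_zero, mul_zero]
      rw [eval_sub, eval_C, sub_eq_zero] at h2
      exact h2
  have hcyc : (Set.range fun n => f^[n] ξ).Finite := range_finite_of_eq hm (by
    rw [Function.iterate_zero_apply]
    exact hξ.symm)
  obtain ⟨T₁, hT₁, hT₁'⟩ := exists_inv_set f ξ hcyc S
  set T₂ : Finset ℂ := T₀ ∪ (T₁ ∪ (S ∪ (g.support.image g.coeff ∪ {x, ζ, (ζ - ξ)⁻¹}))) with hT₂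
  obtain ⟨T, hT, hE⟩ := exists_small T₂
  have hsub0 : ∀ t ∈ T₀, t ∈ T := fun t ht => hT (by rw [hT₂]; simp [ht])
  have hsub1 : ∀ t ∈ T₁, t ∈ T := fun t ht => hT (by rw [hT₂]; simp [ht])
  have hsubS : ∀ t ∈ S, t ∈ T := fun t ht => hT (by rw [hT₂]; simp [ht])
  have hsubx : x ∈ T := hT (by rw [hT₂]; simp)
  have hsubζ : ζ ∈ T := hT (by rw [hT₂]; simp)
  have hsubi : (ζ - ξ)⁻¹ ∈ T := hT (by rw [hT₂]; simp)
  have hsubg : ∀ i ∈ g.support, g.coeff i ∈ T := fun i hi => hT (by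
    rw [hT₂]
    simp only [Finset.mem_union, Finset.mem_image]
    exact Or.inr (Or.inr (Or.inr (Or.inl ⟨i, hi, rfl⟩))))
  have hsubξ : ξ ∈ T := hsub1 _ (hT₁ 0)
  have hgmem := coeff_mem hsubg
  have hcl : ∀ t ∈ T, t ∈ Subring.closure (T : Set ℂ) := fun t ht =>
    Subring.subset_closure (Finset.mem_coe.2 ht)
  have hxmem := fun n => iterate_mem hgmem (hcl x hsubx) n
  -- a nonunit
  obtain ⟨n, z, hz, hne, hnu⟩ : ∃ (n : ℕ) (z : ℂ), (z = ξ ∨ z = ζ) ∧ f^[n] x - z ≠ 0 ∧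
      (f^[n] x - z)⁻¹ ∉ Subring.closure (T : Set ℂ) := by
    by_contra hcon
    push Not at hcon
    have huf := Pool.Agent.Y741.uf (K := ℂ) T
    have hζξ : ζ - ξ ≠ 0 := sub_ne_zero.2 hζ1
    have hbad : {n | f^[n] x = ξ ∨ f^[n] x = ζ}.Finite := by
      have h1 : ({ξ, ζ} : Set ℂ).Finite := (Set.finite_singleton ζ).insert ξ
      refine (h1.preimage (hinj.injOn)).subset ?_
      intro n hn
      exact hn
    have hall : {n | ¬ (f^[n] x = ξ ∨ f^[n] x = ζ)}.Finite := by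
      have hinj2 : Function.Injective fun n => (f^[n] x - ξ) / (ζ - ξ) := by
        intro a b hab
        apply hinj
        beta_reduce at hab ⊢
        rw [div_left_inj' hζξ] at hab
        exact sub_left_injective hab
      refine (huf.preimage (hinj2.injOn)).subset ?_
      intro n hn
      rw [Set.mem_ofPred_eq, not_or] at hn
      have h1 : f^[n] x - ξ ≠ 0 := sub_ne_zero.2 hn.1
      have h2 : f^[n] x - ζ ≠ 0 := sub_ne_zero.2 hn.2
      have h3 := hcon n ξ (Or.inl rfl) h1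
      have h4 := hcon n ζ (Or.inr rfl) h2
      have h5 : 1 - (f^[n] x - ξ) / (ζ - ξ) = -((f^[n] x - ζ) / (ζ - ξ)) := by
        field_simp
        ring
      have hi := hcl _ hsubi
      have hi' : ζ - ξ ∈ Subring.closure (T : Set ℂ) :=
        Subring.sub_mem _ (hcl _ hsubζ) (hcl _ hsubξ)
      change Pool.Agent.Y741.UnitPair _ ((f^[n] x - ξ) / (ζ - ξ))
      refine ⟨div_ne_zero h1 hζξ, ?_, ?_, ?_, ?_, ?_⟩
      · rw [h5]
        exact neg_ne_zero.2 (div_ne_zero h2 hζξ)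
      · rw [div_eq_mul_inv]
        exact Subring.mul_mem _ (Subring.sub_mem _ (hxmem n) (hcl _ hsubξ)) hi
      · rw [inv_div, div_eq_mul_inv]
        exact Subring.mul_mem _ hi' h3
      · rw [h5, div_eq_mul_inv]
        exact Subring.neg_mem _ (Subring.mul_mem _
          (Subring.sub_mem _ (hxmem n) (hcl _ hsubζ)) hi)
      · rw [h5, inv_neg, inv_div, div_eq_mul_inv]
        exact Subring.neg_mem _ (Subring.mul_mem _ hi' h4)
    have huniv : (Set.univ : Set ℕ).Finite := (hbad.union hall).subset (by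
      intro n _
      by_cases h : f^[n] x = ξ ∨ f^[n] x = ζ
      · exact Or.inl h
      · exact Or.inr h)
    exact Set.infinite_univ huniv
  have hzT : z ∈ T := by
    rcases hz with rfl | rfl
    · exact hsubξ
    · exact hsubζ
  have hzg : g.eval z = g.eval ξ := by
    rcases hz with rfl | rfl
    · rfl
    · exact hζ2
  obtain ⟨p, hp, τ, hτ, hlt⟩ := hE _ (Subring.sub_mem _ (hxmem n) (hcl _ hzT)) hne hnu
  refine ⟨p, hp, τ, fun t ht => hτ t (hsub0 t ht), n + 1, fun k hk s hs => ?_⟩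
  have hgτ : ∀ i, ‖τ (g.coeff i)‖ ≤ 1 := fun i => norm_le_of_closure hτ (hgmem i)
  have hxτ := fun n => norm_le_of_closure hτ (hxmem n)
  obtain ⟨h1, h2, h3⟩ := iter_close τ hgτ (hxτ n) (hτ z hzT) hlt 1
  rw [Function.iterate_one] at h1 h2 h3
  have h4 : (f^[k]) x = f^[k - (n + 1)] (g.eval (f^[n] x)) := by
    change _ = f^[k - (n + 1)] (f (f^[n] x))
    rw [← Function.iterate_succ_apply' f n x, ← Function.iterate_add_apply]
    congr 1
    omega
  rw [h4]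
  have h5 : ∀ j, f^[j] (g.eval z) = f^[j + 1] ξ := by
    intro j
    rw [hzg, Function.iterate_succ_apply]
  refine avoid_of_close τ hgτ (fun s hs => hτ s (hsubS s hs)) h1 h2 h3 0 ?_ ?_ _ (Nat.zero_le _) s hs
  · intro j _ s hs
    rw [← hf, h5]
    intro h6
    exact hav (j + 1) (Or.inl (by rw [← hf, h6]; exact Finset.mem_coe.2 hs))
  · intro j _ s hs
    rw [← hf, h5]
    exact hτ _ (hsub1 _ (hT₁' (j + 1) s hs))

/-- For a finite set `S` and a point whose orbit meets `S` finitely often there is an embedding with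
prescribed integral elements such that the reduction of the orbit finally avoids `S`. -/
theorem base (T₀ : Finset ℂ) {g : ℂ[X]} (S : Finset ℂ) (x : ℂ)
    (hg : 2 ≤ g.natDegree ∨ (Set.range fun n => (fun y => g.eval y)^[n] x).Finite)
    (hx : {n | (fun y => g.eval y)^[n] x ∈ S}.Finite) :
    ∃ (p : ℕ) (_ : Fact p.Prime) (τ : ℂ →+* PadicAlgCl p), (∀ t ∈ T₀, ‖τ t‖ ≤ 1) ∧
      ∃ n₁, ∀ n, n₁ ≤ n → ∀ s ∈ S, ‖τ ((fun y => g.eval y)^[n] x - s)‖ = 1 := by
  classical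
  by_cases hfin : (Set.range fun n => (fun y => g.eval y)^[n] x).Finite
  · set f : ℂ → ℂ := fun y => g.eval y with hf
    obtain ⟨T₁, hT₁, hT₁'⟩ := exists_inv_set f x hfin S
    obtain ⟨N, hN⟩ := emb_finite (T₀ ∪ (T₁ ∪ S))
    obtain ⟨p, hpN, hp⟩ := Nat.exists_infinite_primes (N + 1)
    obtain ⟨τ, hτ⟩ := @hN p ⟨hp⟩ (by omega)
    obtain ⟨n₁, hn₁⟩ := hx.bddAbove
    refine ⟨p, ⟨hp⟩, τ, fun t ht => hτ t (by simp [ht]), n₁ + 1, fun n hn s hs => ?_⟩
    refine @norm_one_of p ⟨hp⟩ τ _ ?_ ?_ (hτ _ ?_)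
    · intro h0
      have h1 : n ∈ {n | f^[n] x ∈ S} := by
        rw [Set.mem_ofPred_eq, sub_eq_zero.1 h0]
        exact hs
      have := hn₁ h1
      omega
    · rw [map_sub]
      refine (@norm_sub_le_max' p ⟨hp⟩ _ _).trans (max_le (hτ _ ?_) (hτ s (by simp [hs])))
      simp [hT₁ n]
    · have := hT₁' n s hs
      simp only [Finset.mem_union]
      exact Or.inr (Or.inl this)
  · refine base_wandering T₀ (hg.resolve_right hfin) S x ?_
    intro a b hab
    by_contra hne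
    apply hfin
    rcases lt_or_gt_of_ne hne with h | h
    · exact range_finite_of_eq h hab
    · exact range_finite_of_eq h hab.symm

end Pool.Agent.T2H63.DML
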