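import Pool.Agent.Y199.DM.Orb

/-!
The `p`-adic criterion for return sets of polynomial self-maps of affine space.
-/

set_option autoImplicit false

namespace Pool.Agent.T2H63.DML

open MvPolynomial Pool.Agent.H936R2 Pool.Agent.Y199.DM

/-- A finite union of arithmetic progressions `{a k + b : k ≥ 0}`. -/
def FinAP (R : Set ℕ) : Prop :=
  ∃ T : Finset (ℕ × ℕ), R = {n : ℕ | ∃ q ∈ T, ∃ k : ℕ, n = q.1 * k + q.2}

theorem etale_ret {p : ℕ} [hp : Fact p.Prime] {ι : Type} [Fintype ι] [DecidableEq ι]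
    (τ : ℂ →+* PadicAlgCl p) (f : ι → MvPolynomial ι ℂ) (x : ι → ℂ)
    (hf : ∀ i κ, ‖τ ((f i).coeff κ)‖ ≤ 1) (hx : ∀ i, ‖τ (x i)‖ ≤ 1) (n0 : ℕ)
    (hdet : ∀ n, n0 ≤ n → ‖τ ((jac f ((pt f)^[n] x)).det)‖ = 1) (S : Set (MvPolynomial ι ℂ)) :
    FinAP {n : ℕ | ∀ g ∈ S, eval ((pt f)^[n] x) g = 0} := by
  set O := unitBall (PadicAlgCl p) with hO
  choose FO hFO using fun i => exists_lift τ (f i) (hf i)
  let b : ι → O := fun i => ⟨τ (x i), hx i⟩
  have hitf : ∀ n i, (((pt FO)^[n] b i : O) : PadicAlgCl p) = τ ((pt f)^[n] x i) := by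
    intro n i
    have e1 := pt_map O.subtype FO b n
    have e2 := pt_map τ f x n
    have e3 : (fun i => map O.subtype (FO i)) = fun i => map τ (f i) := _root_.funext hFO
    have e4 : (fun i => O.subtype (b i)) = fun i => τ (x i) := rfl
    rw [e3, e4, e2] at e1
    exact (congrFun e1 i).symm
  have hunit : ∀ n, n0 ≤ n → IsUnit (jac FO ((pt FO)^[n] b)).det := by
    intro n hn
    rw [unitBall_isUnit_iff]
    have e1 : (((jac FO ((pt FO)^[n] b)).det : O) : PadicAlgCl p) =
        τ ((jac f ((pt f)^[n] x)).det) := by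
      have e2 : (((jac FO ((pt FO)^[n] b)).det : O) : PadicAlgCl p) =
        O.subtype (jac FO ((pt FO)^[n] b)).det := rfl
      rw [e2, RingHom.map_det, ← jac_map, RingHom.map_det, ← jac_map]
      have e3 : (fun i => map O.subtype (FO i)) = fun i => map τ (f i) := _root_.funext hFO
      have e4 : (fun i => O.subtype ((pt FO)^[n] b i)) = fun i => τ ((pt f)^[n] x i) :=
        _root_.funext (hitf n)
      rw [e3, e4]
    rw [e1]
    exact hdet n hn
  obtain ⟨n1, k, hk, hret⟩ := return_set p FO b n0 hunit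
  apply exists_progressions _ n1 k hk
  intro r hinf t
  have hiff : ∀ n, (∀ q ∈ S, eval ((pt f)^[n] x) q = 0) ↔
      ∀ Q ∈ (fun q => map τ q) '' S,
        eval (fun i => (((pt FO)^[n] b i : O) : PadicAlgCl p)) Q = 0 := by
    intro n
    have hval : ∀ q : MvPolynomial ι ℂ,
        (eval (fun i => (((pt FO)^[n] b i : O) : PadicAlgCl p)) (map τ q) = 0 ↔
        eval ((pt f)^[n] x) q = 0) := by
      intro q
      have e4 : (fun i => (((pt FO)^[n] b i : O) : PadicAlgCl p)) =
        fun i => τ ((pt f)^[n] x i) := _root_.funext (hitf n)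
      have e1 : eval (fun i => τ ((pt f)^[n] x i)) (map τ q) = τ (eval ((pt f)^[n] x) q) := by
        rw [eval_map]
        have h := eval₂_comp_left τ (RingHom.id _) ((pt f)^[n] x) q
        rw [RingHom.comp_id] at h
        exact h.symm
      rw [e4, e1, map_eq_zero]
    constructor
    · rintro h Q ⟨q, hq, rfl⟩
      exact (hval q).2 (h q hq)
    · intro h q hq
      exact (hval q).1 (h _ ⟨q, hq, rfl⟩)
  simp only [Set.mem_ofPred_eq, hiff] at hinf ⊢
  exact hret _ r hinf t

end Pool.Agent.T2H63.DML
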