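import Pool.Agent.Y199.DM.Emb

/-!
Embeddings of `ℂ` into the algebraic closure of `ℚ_p` for which given numbers are integral and a
given nonunit of a finitely generated ring is not a unit.
-/

set_option autoImplicit false

namespace Pool.Agent.T2H63.DML

open Polynomial Pool.Agent.H936R2 Pool.Agent.TH838.PR Pool.Agent.Y199.DM

/-- evaluation of the integral polynomials at `y` -/
noncomputable def ev {m : ℕ} (y : Fin m → ℂ) : MvPolynomial (Fin m) ℤ →+* ℂ :=
  (MvPolynomial.aeval y : MvPolynomial (Fin m) ℤ →ₐ[ℤ] ℂ).toRingHom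

theorem ev_X {m : ℕ} (y : Fin m → ℂ) (j : Fin m) : ev y (MvPolynomial.X j) = y j :=
  MvPolynomial.aeval_X _ _

theorem ev_C {m : ℕ} (y : Fin m → ℂ) (c : ℤ) : ev y (MvPolynomial.C c) = c :=
  (MvPolynomial.aeval_C _ _).trans rfl

attribute [local instance] MvPolynomial.algebraMvPolynomial in
/-- The Noether normalization of finitely many complex numbers over `ℤ`. -/
theorem noether_int (s : Finset ℂ) : ∃ (m : ℕ) (y : Fin m → ℂ), AlgebraicIndependent ℚ y ∧
    ∃ D : ℕ, 0 < D ∧ ∀ x ∈ s, (ev y).IsIntegralElem (D * x) := by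
  classical
  let R := Algebra.adjoin ℚ (s : Set ℂ)
  have hfg : Algebra.FiniteType ℚ R :=
    (Subalgebra.fg_iff_finiteType _).1 (Subalgebra.fg_adjoin_finset s)
  obtain ⟨t, g, hinj, hint⟩ := exists_integral_inj_algHom_of_fg ℚ R
  have hmem : ∀ x ∈ s, x ∈ R := fun x hx => Algebra.subset_adjoin hx
  let y : Fin t → ℂ := fun j => ((g (MvPolynomial.X j) : R) : ℂ)
  have hy1 : (MvPolynomial.aeval y : MvPolynomial (Fin t) ℚ →ₐ[ℚ] ℂ) = R.val.comp g := by
    apply MvPolynomial.algHom_ext
    intro i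
    simp [y]
  have hy : AlgebraicIndependent ℚ y := by
    rw [algebraicIndependent_iff_injective_aeval, hy1, AlgHom.coe_comp]
    exact Subtype.val_injective.comp hinj
  let iA : Algebra (MvPolynomial (Fin t) ℤ) ℂ := (ev y).toAlgebra
  let iB : Algebra (MvPolynomial (Fin t) ℚ) ℂ :=
    (MvPolynomial.aeval y : MvPolynomial (Fin t) ℚ →ₐ[ℚ] ℂ).toRingHom.toAlgebra
  have hst : IsScalarTower (MvPolynomial (Fin t) ℤ) (MvPolynomial (Fin t) ℚ) ℂ := by
    apply IsScalarTower.of_algebraMap_eq'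
    apply MvPolynomial.ringHom_ext
    · intro r
      change ev y (MvPolynomial.C r) = (MvPolynomial.aeval y : MvPolynomial (Fin t) ℚ →ₐ[ℚ] ℂ)
        (algebraMap (MvPolynomial (Fin t) ℤ) (MvPolynomial (Fin t) ℚ) (MvPolynomial.C r))
      rw [ev_C, MvPolynomial.algebraMap_def, MvPolynomial.map_C, MvPolynomial.aeval_C]
      simp
    · intro i
      change ev y (MvPolynomial.X i) = (MvPolynomial.aeval y : MvPolynomial (Fin t) ℚ →ₐ[ℚ] ℂ)
        (algebraMap (MvPolynomial (Fin t) ℤ) (MvPolynomial (Fin t) ℚ) (MvPolynomial.X i))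
      rw [ev_X, MvPolynomial.algebraMap_def, MvPolynomial.map_X, MvPolynomial.aeval_X]
  have hloc : IsLocalization ((nonZeroDivisors ℤ).map (MvPolynomial.C (σ := Fin t)))
      (MvPolynomial (Fin t) ℚ) := MvPolynomial.isLocalization _ _
  have h1 : ∀ x : s, ∃ d : ℕ, 0 < d ∧ (ev y).IsIntegralElem (d * (x : ℂ)) := by
    intro x
    obtain ⟨f, hf, h0⟩ := hint (⟨x, hmem x x.2⟩ : R)
    have hx : IsIntegral (MvPolynomial (Fin t) ℚ) (x : ℂ) := by
      refine ⟨f, hf, ?_⟩
      have h2 := congrArg (fun z : R => R.val z) h0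
      simp only [map_zero] at h2
      rw [← h2]
      have h3 := Polynomial.hom_eval₂ f (g : MvPolynomial (Fin t) ℚ →+* R) (R.val : R →+* ℂ)
        (⟨x, hmem x x.2⟩ : R)
      refine Eq.trans ?_ h3.symm
      congr 1
      change (MvPolynomial.aeval y : MvPolynomial (Fin t) ℚ →ₐ[ℚ] ℂ).toRingHom = _
      rw [hy1]
      rfl
    obtain ⟨⟨c, hc⟩, hcx⟩ := IsIntegral.exists_multiple_integral_of_isLocalization
      ((nonZeroDivisors ℤ).map (MvPolynomial.C (σ := Fin t))) (x : ℂ) hx
    obtain ⟨d, hd, rfl⟩ := hc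
    have hd0 : d ≠ 0 := nonZeroDivisors.ne_zero hd
    have h2 : (ev y).IsIntegralElem ((d : ℂ) * (x : ℂ)) := by
      have h3 : IsIntegral (MvPolynomial (Fin t) ℤ) ((d : ℂ) * (x : ℂ)) := by
        have h4 : ((⟨MvPolynomial.C d, ⟨d, hd, rfl⟩⟩ :
          (nonZeroDivisors ℤ).map (MvPolynomial.C (σ := Fin t))) • (x : ℂ)) = (d : ℂ) * (x : ℂ) := by
          rw [Submonoid.smul_def, Algebra.smul_def]
          congr 1
          exact ev_C y d
        rw [← h4]
        exact hcx
      exact h3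
    refine ⟨d.natAbs, Int.natAbs_pos.2 hd0, ?_⟩
    rcases Int.natAbs_eq d with h | h
    · have h4 : ((d.natAbs : ℕ) : ℂ) = (d : ℂ) := by
        have := congrArg (fun z : ℤ => (z : ℂ)) h
        simpa using this.symm
      rw [h4]
      exact h2
    · have h4 : ((d.natAbs : ℕ) : ℂ) = -(d : ℂ) := by
        have := congrArg (fun z : ℤ => (z : ℂ)) h
        simp only [Int.cast_neg, Int.cast_natCast] at this
        rw [this]
        ring
      rw [h4, neg_mul]
      exact RingHom.IsIntegralElem.neg _ h2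
  choose d hd hd' using h1
  refine ⟨t, y, hy, ∏ x, d x, Finset.prod_pos fun x _ => hd x, fun x hx => ?_⟩
  obtain ⟨c, hc⟩ := Finset.dvd_prod_of_mem d (Finset.mem_univ (⟨x, hx⟩ : s))
  rw [hc]
  have h2 : (((d ⟨x, hx⟩ * c : ℕ)) : ℂ) * x = (ev y) (MvPolynomial.C (c : ℤ)) * (d ⟨x, hx⟩ * x) := by
    rw [ev_C]
    push_cast
    ring
  rw [h2]
  exact RingHom.IsIntegralElem.mul _ (RingHom.isIntegralElem_map _) (hd' ⟨x, hx⟩)

/-- an integral element over `ℤ[y]` is mapped to an integral element -/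
theorem norm_le_of_integral {p : ℕ} [hp : Fact p.Prime] {m : ℕ} {y : Fin m → ℂ}
    (τ : ℂ →+* PadicAlgCl p) (hτ : ∀ j, ‖τ (y j)‖ ≤ 1) {z : ℂ} (hz : (ev y).IsIntegralElem z) :
    ‖τ z‖ ≤ 1 := by
  obtain ⟨f, hf, h0⟩ := hz
  have h3 := congrArg τ h0
  rw [Polynomial.hom_eval₂, map_zero] at h3
  refine norm_le_one_of_monic (f.map (τ.comp (ev y))) (hf.map _) (fun i => ?_)
    (by rw [Polynomial.eval_map]; exact h3)
  rw [Polynomial.coeff_map]
  generalize f.coeff i = c
  induction c using MvPolynomial.induction_on with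
  | C a =>
    change ‖τ (ev y (MvPolynomial.C a))‖ ≤ 1
    rw [ev_C, map_intCast, norm_int]
    exact Padic.norm_int_le_one a
  | add q r hq hr =>
    rw [map_add]
    exact (IsUltrametricDist.norm_add_le_max _ _).trans (max_le hq hr)
  | mul_X q j hq =>
    rw [map_mul, norm_mul]
    refine mul_le_one₀ hq (norm_nonneg _) ?_
    change ‖τ (ev y (MvPolynomial.X j))‖ ≤ 1
    rw [ev_X]
    exact hτ j

/-- the values of an integral polynomial at nearby integral points are near -/
theorem norm_eval_sub_lt {p : ℕ} [hp : Fact p.Prime] {m : ℕ} (f : MvPolynomial (Fin m) ℤ)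
    {u v : Fin m → PadicAlgCl p} (hu : ∀ j, ‖u j‖ ≤ 1) (hv : ∀ j, ‖v j‖ ≤ 1)
    (huv : ∀ j, ‖u j - v j‖ < 1) :
    ‖MvPolynomial.aeval u f‖ ≤ 1 ∧ ‖MvPolynomial.aeval v f‖ ≤ 1 ∧
      ‖MvPolynomial.aeval u f - MvPolynomial.aeval v f‖ < 1 := by
  induction f using MvPolynomial.induction_on with
  | C a =>
    rw [MvPolynomial.aeval_C, MvPolynomial.aeval_C, sub_self, norm_zero]
    have h1 : ‖algebraMap ℤ (PadicAlgCl p) a‖ ≤ 1 := by
      rw [eq_intCast, norm_int]
      exact Padic.norm_int_le_one a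
    exact ⟨h1, h1, one_pos⟩
  | add q r hq hr =>
    rw [map_add, map_add]
    refine ⟨(IsUltrametricDist.norm_add_le_max _ _).trans (max_le hq.1 hr.1),
      (IsUltrametricDist.norm_add_le_max _ _).trans (max_le hq.2.1 hr.2.1), ?_⟩
    have e : (MvPolynomial.aeval u q + MvPolynomial.aeval u r -
      (MvPolynomial.aeval v q + MvPolynomial.aeval v r) : PadicAlgCl p) =
      (MvPolynomial.aeval u q - MvPolynomial.aeval v q) +
        (MvPolynomial.aeval u r - MvPolynomial.aeval v r) := by ring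
    rw [e]
    exact (IsUltrametricDist.norm_add_le_max _ _).trans_lt (max_lt hq.2.2 hr.2.2)
  | mul_X q j hq =>
    rw [map_mul, map_mul, MvPolynomial.aeval_X, MvPolynomial.aeval_X, norm_mul, norm_mul]
    refine ⟨mul_le_one₀ hq.1 (norm_nonneg _) (hu j), mul_le_one₀ hq.2.1 (norm_nonneg _) (hv j), ?_⟩
    have e : (MvPolynomial.aeval u q * u j - MvPolynomial.aeval v q * v j : PadicAlgCl p) =
      (MvPolynomial.aeval u q - MvPolynomial.aeval v q) * u j +
        MvPolynomial.aeval v q * (u j - v j) := by ring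
    rw [e]
    refine (IsUltrametricDist.norm_add_le_max _ _).trans_lt (max_lt ?_ ?_)
    · rw [norm_mul]
      calc _ ≤ ‖(MvPolynomial.aeval u q - MvPolynomial.aeval v q : PadicAlgCl p)‖ * 1 :=
            mul_le_mul_of_nonneg_left (hu j) (norm_nonneg _)
        _ < 1 := by rw [mul_one]; exact hq.2.2
    · rw [norm_mul]
      calc _ ≤ 1 * ‖(u j - v j : PadicAlgCl p)‖ :=
            mul_le_mul_of_nonneg_right hq.2.1 (norm_nonneg _)
        _ < 1 := by rw [one_mul]; exact huv j

/-- a nonconstant integral polynomial in one variable has an integral root at almost all primes -/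
theorem exists_integral_root (f : ℤ[X]) (hf : f.natDegree ≠ 0) (p : ℕ) [hp : Fact p.Prime]
    (h : f.leadingCoeff.natAbs < p) :
    ∃ θ : PadicAlgCl p, aeval θ f = 0 ∧ ‖θ‖ ≤ 1 := by
  have hlc : f.leadingCoeff ≠ 0 := by
    intro h0
    rw [leadingCoeff_eq_zero] at h0
    rw [h0, natDegree_zero] at hf
    exact hf rfl
  obtain ⟨θ, hθ⟩ := IsAlgClosed.exists_aeval_eq_zero (PadicAlgCl p) f (by
    intro h0
    apply hf
    exact natDegree_eq_of_degree_eq_some h0)
  refine ⟨θ, hθ, ?_⟩
  have hn : ‖((f.leadingCoeff : ℤ) : PadicAlgCl p)‖ = 1 := by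
    refine le_antisymm ?_ ?_
    · rw [norm_int]
      exact Padic.norm_int_le_one _
    · by_contra hlt
      push Not at hlt
      have h1 := dvd_of_norm_lt hlt
      have h2 := Int.natAbs_dvd_natAbs.2 h1
      have h3 := Nat.le_of_dvd (Int.natAbs_pos.2 hlc) h2
      simp at h3
      omega
  set F : (PadicAlgCl p)[X] := C ((f.leadingCoeff : ℤ) : PadicAlgCl p)⁻¹ *
    f.map (Int.castRingHom (PadicAlgCl p)) with hF
  have hc0 : ((f.leadingCoeff : ℤ) : PadicAlgCl p) ≠ 0 := by
    intro h0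
    rw [h0, norm_zero] at hn
    exact zero_ne_one hn
  refine norm_le_one_of_monic F ?_ ?_ ?_
  · rw [hF, Monic, leadingCoeff_mul, leadingCoeff_C,
      leadingCoeff_map_of_leadingCoeff_ne_zero _ (by rwa [eq_intCast]), eq_intCast,
      inv_mul_cancel₀ hc0]
  · intro i
    rw [hF, coeff_C_mul, norm_mul, norm_inv, hn, inv_one, one_mul, coeff_map, eq_intCast, norm_int]
    exact Padic.norm_int_le_one _
  · rw [hF, eval_mul, eval_map]
    have h1 : eval₂ (Int.castRingHom (PadicAlgCl p)) θ f = 0 := hθ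
    rw [h1, mul_zero]

/-- A polynomial over `ℤ` is either small at some embedding of large residue characteristic or a
constant with small prime factors only. -/
theorem small_poly {m : ℕ} (y : Fin m → ℂ) (hy : AlgebraicIndependent ℚ y) (M : ℕ)
    (f : MvPolynomial (Fin m) ℤ) :
    (∃ (p : ℕ) (_ : Fact p.Prime) (τ : ℂ →+* PadicAlgCl p), M < p ∧ (∀ j, ‖τ (y j)‖ ≤ 1) ∧
      ‖τ (ev y f)‖ < 1) ∨
    ∃ c : ℤ, f = MvPolynomial.C c ∧ ∀ p : ℕ, p.Prime → (p : ℤ) ∣ c → p ≤ M := by
  classical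
  have hval : ∀ (p : ℕ) [Fact p.Prime] (τ : ℂ →+* PadicAlgCl p),
      τ (ev y f) = MvPolynomial.aeval (fun j => τ (y j)) f := by
    intro p _ τ
    have h1 : τ.comp (ev y) = (MvPolynomial.aeval (fun j => τ (y j)) :
        MvPolynomial (Fin m) ℤ →ₐ[ℤ] PadicAlgCl p).toRingHom := by
      apply MvPolynomial.ringHom_ext
      · intro r
        change τ (ev y (MvPolynomial.C r)) = MvPolynomial.aeval (fun j => τ (y j)) (MvPolynomial.C r)
        rw [ev_C, map_intCast, MvPolynomial.aeval_C, eq_intCast]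
      · intro i
        change τ (ev y (MvPolynomial.X i)) = MvPolynomial.aeval (fun j => τ (y j)) (MvPolynomial.X i)
        rw [ev_X, MvPolynomial.aeval_X]
    exact RingHom.congr_fun h1 f
  by_cases hcst : ∃ w : Fin m → ℤ, MvPolynomial.eval w f ≠ MvPolynomial.eval 0 f
  · left
    obtain ⟨w, hw⟩ := hcst
    let f1 : ℤ[X] := MvPolynomial.aeval (fun j => C (w j) * X) f
    have hf1 : ∀ z : ℤ, f1.eval z = MvPolynomial.eval (fun j => w j * z) f := by
      intro z
      have h1 : (evalRingHom z).comp (MvPolynomial.aeval (fun j => C (w j) * X) :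
          MvPolynomial (Fin m) ℤ →ₐ[ℤ] ℤ[X]).toRingHom = MvPolynomial.eval (fun j => w j * z) := by
        apply MvPolynomial.ringHom_ext
        · intro r
          change (evalRingHom z) (MvPolynomial.aeval (fun j => C (w j) * X) (MvPolynomial.C r)) = _
          rw [MvPolynomial.aeval_C, MvPolynomial.eval_C]
          simp
        · intro i
          change (evalRingHom z) (MvPolynomial.aeval (fun j => C (w j) * X) (MvPolynomial.X i)) = _
          rw [MvPolynomial.aeval_X, MvPolynomial.eval_X]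
          simp
      exact RingHom.congr_fun h1 f
    have hdeg : f1.natDegree ≠ 0 := by
      intro h0
      rw [natDegree_eq_zero] at h0
      obtain ⟨c, hc⟩ := h0
      have h1 := hf1 1
      have h2 := hf1 0
      rw [← hc, eval_C] at h1 h2
      apply hw
      have e1 : (fun j => w j * (1 : ℤ)) = w := by funext j; ring
      have e2 : (fun j => w j * (0 : ℤ)) = 0 := by funext j; simp
      rw [e1] at h1
      rw [e2] at h2
      rw [← h1, ← h2]
    obtain ⟨p, hpM, hp⟩ := Nat.exists_infinite_primes (M + f1.leadingCoeff.natAbs + 1)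
    have : Fact p.Prime := ⟨hp⟩
    obtain ⟨θ, hθ0, hθ1⟩ := exists_integral_root f1 hdeg p (by omega)
    have hwn : ∀ j, ‖((w j : ℤ) : PadicAlgCl p) * θ‖ ≤ 1 := by
      intro j
      rw [norm_mul]
      refine mul_le_one₀ ?_ (norm_nonneg _) hθ1
      rw [norm_int]
      exact Padic.norm_int_le_one _
    have hθa : IsAlgebraic ℚ θ := by
      have h1 : IsAlgebraic ℤ θ := ⟨f1, by
        intro h0
        rw [h0, natDegree_zero] at hdeg
        exact hdeg rfl, hθ0⟩
      exact h1.extendScalars (Int.cast_injective (α := ℚ))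
    obtain ⟨τ, hτ⟩ := Pool.Agent.TH838.PS.emb_near p y hy (fun j => (w j : PadicAlgCl p) * θ)
      (fun j => by
        have h1 : IsAlgebraic ℚ ((w j : PadicAlgCl p)) := by
          have h2 := isAlgebraic_algebraMap (R := ℚ) (A := PadicAlgCl p) (w j : ℚ)
          rwa [map_intCast] at h2
        exact h1.mul hθa)
    have hτ1 : ∀ j, ‖τ (y j)‖ ≤ 1 := by
      intro j
      have e : τ (y j) = (τ (y j) - (w j : PadicAlgCl p) * θ) + (w j : PadicAlgCl p) * θ := by ring
      rw [e]
      exact (IsUltrametricDist.norm_add_le_max _ _).trans (max_le (hτ j).le (hwn j))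
    refine ⟨p, ⟨hp⟩, τ, by omega, hτ1, ?_⟩
    rw [hval]
    have h1 := (norm_eval_sub_lt f hτ1 hwn hτ).2.2
    have h2 : (MvPolynomial.aeval (fun j => (w j : PadicAlgCl p) * θ) f : PadicAlgCl p) = 0 := by
      have h3 : ((aeval θ : ℤ[X] →ₐ[ℤ] PadicAlgCl p).comp
          (MvPolynomial.aeval (fun j => C (w j) * X) : MvPolynomial (Fin m) ℤ →ₐ[ℤ] ℤ[X])) =
          MvPolynomial.aeval (fun j => (w j : PadicAlgCl p) * θ) := by
        apply MvPolynomial.algHom_ext
        intro i
        rw [AlgHom.comp_apply, MvPolynomial.aeval_X, MvPolynomial.aeval_X, map_mul, aeval_X, aeval_C,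
          eq_intCast]
      rw [← h3]
      exact hθ0
    rwa [h2, sub_zero] at h1
  · push Not at hcst
    have hfC : f = MvPolynomial.C (MvPolynomial.eval 0 f) := by
      apply MvPolynomial.funext
      intro w
      rw [MvPolynomial.eval_C]
      exact hcst w
    by_cases hbig : ∃ p : ℕ, p.Prime ∧ (p : ℤ) ∣ MvPolynomial.eval 0 f ∧ M < p
    · left
      obtain ⟨p, hp, hdvd, hM⟩ := hbig
      have : Fact p.Prime := ⟨hp⟩
      obtain ⟨τ, hτ⟩ := emb_indep p y hy
      refine ⟨p, ⟨hp⟩, τ, hM, hτ, ?_⟩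
      rw [hfC, ev_C, map_intCast]
      exact norm_lt_of_dvd hdvd
    · right
      push Not at hbig
      exact ⟨_, hfC, hbig⟩

end Pool.Agent.T2H63.DML
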