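import Pool.Agent.T2H63.DML.Base

/-!
The reduction of a wandering orbit of a polynomial enters a given finite invariant set which is not
totally invariant, at some place.
-/

set_option autoImplicit false

namespace Pool.Agent.T2H63.DML

open Polynomial Pool.Agent.H936R2 Pool.Agent.TH838.PR Pool.Agent.Y199.DM

/-- The reduction of a wandering orbit enters a given finite invariant set at some place. -/
theorem base_enter (T₀ : Finset ℂ) {g : ℂ[X]} (x : ℂ)
    (hinj : Function.Injective fun n => (fun y => g.eval y)^[n] x) (O : Finset ℂ)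
    (hO : ∀ o ∈ O, g.eval o ∈ O) (ξ ζ : ℂ) (hζ1 : ζ ≠ ξ) (hξO : g.eval ξ ∈ O)
    (hζO : g.eval ζ ∈ O) :
    ∃ (p : ℕ) (_ : Fact p.Prime) (τ : ℂ →+* PadicAlgCl p), (∀ t ∈ T₀, ‖τ t‖ ≤ 1) ∧
      ∃ n₁, ∀ n, n₁ ≤ n → ∃ o ∈ O, ‖τ ((fun y => g.eval y)^[n] x - o)‖ < 1 := by
  classical
  set f : ℂ → ℂ := fun y => g.eval y with hf
  set T₂ : Finset ℂ := T₀ ∪ (g.support.image g.coeff ∪ {x, ξ, ζ, (ζ - ξ)⁻¹}) with hT₂
  obtain ⟨T, hT, hE⟩ := exists_small T₂
  have hsub0 : ∀ t ∈ T₀, t ∈ T := fun t ht => hT (by rw [hT₂]; simp [ht])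
  have hsubx : x ∈ T := hT (by rw [hT₂]; simp)
  have hsubξ : ξ ∈ T := hT (by rw [hT₂]; simp)
  have hsubζ : ζ ∈ T := hT (by rw [hT₂]; simp)
  have hsubi : (ζ - ξ)⁻¹ ∈ T := hT (by rw [hT₂]; simp)
  have hsubg : ∀ i ∈ g.support, g.coeff i ∈ T := fun i hi => hT (by
    rw [hT₂]
    simp only [Finset.mem_union, Finset.mem_image]
    exact Or.inr (Or.inl ⟨i, hi, rfl⟩))
  have hgmem := coeff_mem hsubg
  have hcl : ∀ t ∈ T, t ∈ Subring.closure (T : Set ℂ) := fun t ht =>
    Subring.subset_closure (Finset.mem_coe.2 ht)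
  have hxmem := fun n => iterate_mem hgmem (hcl x hsubx) n
  -- a nonunit
  obtain ⟨n, z, hz, hne, hnu⟩ : ∃ (n : ℕ) (z : ℂ), (z = ξ ∨ z = ζ) ∧ f^[n] x - z ≠ 0 ∧
      (f^[n] x - z)⁻¹ ∉ Subring.closure (T : Set ℂ) := by
    by_contra hcon
    push Not at hcon
    have huf := Pool.Agent.Y741.uf (K := ℂ) T
    have hζξ : ζ - ξ ≠ 0 := sub_ne_zero.2 hζ1
    have hbad : {n | f^[n] x = ξ ∨ f^[n] x = ζ}.Finite := by
      have h1 : ({ξ, ζ} : Set ℂ).Finite := (Set.finite_singleton ζ).insert ξ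
      refine (h1.preimage (hinj.injOn)).subset ?_
      intro n hn
      exact hn
    have hall : {n | ¬ (f^[n] x = ξ ∨ f^[n] x = ζ)}.Finite := by
      have hinj2 : Function.Injective fun n => (f^[n] x - ξ) / (ζ - ξ) := by
        intro a b hab
        apply hinj
        beta_reduce at hab ⊢
        rw [div_left_inj' hζξ] at hab
        exact sub_left_injective hab
      refine (huf.preimage (hinj2.injOn)).subset ?_
      intro n hn
      rw [Set.mem_ofPred_eq, not_or] at hn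
      have h1 : f^[n] x - ξ ≠ 0 := sub_ne_zero.2 hn.1
      have h2 : f^[n] x - ζ ≠ 0 := sub_ne_zero.2 hn.2
      have h3 := hcon n ξ (Or.inl rfl) h1
      have h4 := hcon n ζ (Or.inr rfl) h2
      have h5 : 1 - (f^[n] x - ξ) / (ζ - ξ) = -((f^[n] x - ζ) / (ζ - ξ)) := by
        field_simp
        ring
      have hi := hcl _ hsubi
      have hi' : ζ - ξ ∈ Subring.closure (T : Set ℂ) :=
        Subring.sub_mem _ (hcl _ hsubζ) (hcl _ hsubξ)
      change Pool.Agent.Y741.UnitPair _ ((f^[n] x - ξ) / (ζ - ξ))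
      refine ⟨div_ne_zero h1 hζξ, ?_, ?_, ?_, ?_, ?_⟩
      · rw [h5]
        exact neg_ne_zero.2 (div_ne_zero h2 hζξ)
      · rw [div_eq_mul_inv]
        exact Subring.mul_mem _ (Subring.sub_mem _ (hxmem n) (hcl _ hsubξ)) hi
      · rw [inv_div, div_eq_mul_inv]
        exact Subring.mul_mem _ hi' h3
      · rw [h5, div_eq_mul_inv]
        exact Subring.neg_mem _ (Subring.mul_mem _
          (Subring.sub_mem _ (hxmem n) (hcl _ hsubζ)) hi)
      · rw [h5, inv_neg, inv_div, div_eq_mul_inv]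
        exact Subring.neg_mem _ (Subring.mul_mem _ hi' h4)
    have huniv : (Set.univ : Set ℕ).Finite := (hbad.union hall).subset (by
      intro n _
      by_cases h : f^[n] x = ξ ∨ f^[n] x = ζ
      · exact Or.inl h
      · exact Or.inr h)
    exact Set.infinite_univ huniv
  have hzT : z ∈ T := by
    rcases hz with rfl | rfl
    · exact hsubξ
    · exact hsubζ
  have hzg : g.eval z ∈ O := by
    rcases hz with rfl | rfl
    · exact hξO
    · exact hζO
  obtain ⟨p, hp, τ, hτ, hlt⟩ := hE _ (Subring.sub_mem _ (hxmem n) (hcl _ hzT)) hne hnu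
  refine ⟨p, hp, τ, fun t ht => hτ t (hsub0 t ht), n + 1, fun k hk => ⟨f^[k - n] z, ?_, ?_⟩⟩
  · have h6 : ∀ j, f^[j] (g.eval z) ∈ O := by
      intro j
      induction j with
      | zero => exact hzg
      | succ j ih =>
        rw [Function.iterate_succ_apply']
        exact hO _ ih
    rw [show k - n = k - (n + 1) + 1 by omega, Function.iterate_succ_apply]
    exact h6 _
  · have hgτ : ∀ i, ‖τ (g.coeff i)‖ ≤ 1 := fun i => norm_le_of_closure hτ (hgmem i)
    have hxτ := fun n => norm_le_of_closure hτ (hxmem n)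
    obtain ⟨h1, h2, h3⟩ := iter_close τ hgτ (hxτ n) (hτ z hzT) hlt (k - n)
    have h4 : f^[k] x = f^[k - n] (f^[n] x) := by
      rw [← Function.iterate_add_apply]
      congr 1
      omega
    rw [h4]
    exact h3

end Pool.Agent.T2H63.DML
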