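import Pool.Agent.T2H63.DML.Base
import Pool.Agent.T2H63.DML.Crit

/-!
Return sets of polynomial self-maps of affine space whose critical points lie over finitely many
points of the line for suitable semiconjugacies with polynomials in one variable.
-/

set_option autoImplicit false

namespace Pool.Agent.T2H63.DML

open Polynomial Pool.Agent.H936R2 Pool.Agent.TH838.PR Pool.Agent.Y199.DM

theorem iter_mem {N : ℕ} {F : Fin N → MvPolynomial (Fin N) ℂ} {X : Set (Fin N → ℂ)}
    (hinv : ∀ v ∈ X, pt F v ∈ X) {v : Fin N → ℂ} (hv : v ∈ X) (n : ℕ) : (pt F)^[n] v ∈ X := by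
  induction n with
  | zero => exact hv
  | succ n ih =>
    rw [Function.iterate_succ_apply']
    exact hinv _ ih

theorem semi_iter {N : ℕ} {F : Fin N → MvPolynomial (Fin N) ℂ} {X : Set (Fin N → ℂ)}
    (hinv : ∀ v ∈ X, pt F v ∈ X) {P : MvPolynomial (Fin N) ℂ} {g : ℂ[X]}
    (h : ∀ v ∈ X, MvPolynomial.eval (pt F v) P = g.eval (MvPolynomial.eval v P)) {v : Fin N → ℂ}
    (hv : v ∈ X) (n : ℕ) : MvPolynomial.eval ((pt F)^[n] v) P =
      (fun y => g.eval y)^[n] (MvPolynomial.eval v P) := by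
  induction n with
  | zero => rfl
  | succ n ih =>
    rw [Function.iterate_succ_apply', Function.iterate_succ_apply', h _ (iter_mem hinv hv n), ih]

/-- the product of all `P - s` -/
noncomputable def ker {N : ℕ} (P : MvPolynomial (Fin N) ℂ) (S : Finset ℂ) : MvPolynomial (Fin N) ℂ :=
  ∏ s ∈ S, (P - MvPolynomial.C s)

theorem eval_ker {N : ℕ} (P : MvPolynomial (Fin N) ℂ) (S : Finset ℂ) (v : Fin N → ℂ) :
    MvPolynomial.eval v (ker P S) = ∏ s ∈ S, (MvPolynomial.eval v P - s) := by
  simp [ker, map_prod]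

theorem norm_eval_mv_le {p : ℕ} [hp : Fact p.Prime] (τ : ℂ →+* PadicAlgCl p) {N : ℕ}
    (f : MvPolynomial (Fin N) ℂ) (hf : ∀ κ, ‖τ (f.coeff κ)‖ ≤ 1) (v : Fin N → ℂ)
    (hv : ∀ i, ‖τ (v i)‖ ≤ 1) : ‖τ (MvPolynomial.eval v f)‖ ≤ 1 := by
  rw [MvPolynomial.eval_eq', map_sum]
  refine sum_le _ _ zero_le_one fun κ _ => ?_
  rw [map_mul, map_prod, norm_mul, norm_prod]
  refine mul_le_one₀ (hf κ) (by positivity) (Finset.prod_le_one (fun _ _ => norm_nonneg _) ?_)
  intro i _
  rw [map_pow, norm_pow]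
  exact pow_le_one₀ (norm_nonneg _) (hv i)

/-- The general theorem. -/
theorem general {N : ℕ} (F : Fin N → MvPolynomial (Fin N) ℂ) (I : Set (MvPolynomial (Fin N) ℂ))
    (X : Set (Fin N → ℂ)) (hX : X = {v | ∀ f ∈ I, MvPolynomial.eval v f = 0})
    (hinv : ∀ v ∈ X, pt F v ∈ X) (P : MvPolynomial (Fin N) ℂ) (g : ℂ[X])
    (S : Finset ℂ) (hsemi : ∀ v ∈ X, MvPolynomial.eval (pt F v) P = g.eval (MvPolynomial.eval v P))
    {r : ℕ} (Q : Fin r → MvPolynomial (Fin N) ℂ) (h : Fin r → ℂ[X]) (U : Fin r → Finset ℂ)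
    (hsemi' : ∀ j, ∀ v ∈ X,
      MvPolynomial.eval (pt F v) (Q j) = (h j).eval (MvPolynomial.eval v (Q j)))
    (hfin : ∀ j, ∀ s ∈ U j, (Set.range fun n => (fun y => (h j).eval y)^[n] s).Finite)
    (hret : ∀ j, ∀ s ∈ U j, {n | (fun y => (h j).eval y)^[n] s ∈ U j}.Finite)
    (hcrit : ∀ v ∈ X, (jac F v).det = 0 →
      MvPolynomial.eval v P ∈ S ∨ ∃ j, MvPolynomial.eval v (Q j) ∈ U j)
    (α : Fin N → ℂ) (hαX : α ∈ X)
    (hg : 2 ≤ g.natDegree ∨
      (Set.range fun n => (fun y => g.eval y)^[n] (MvPolynomial.eval α P)).Finite)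
    (hα : {n | MvPolynomial.eval ((pt F)^[n] α) P ∈ S}.Finite) (V : Set (MvPolynomial (Fin N) ℂ)) :
    FinAP {n : ℕ | ∀ f ∈ V, MvPolynomial.eval ((pt F)^[n] α) f = 0} := by
  classical
  -- the jacobian determinant divides a power of the product of all `P - s` and `Q_j - s`
  let Jd : MvPolynomial (Fin N) ℂ := (Matrix.of fun i j => MvPolynomial.pderiv j (F i)).det
  have hJd : ∀ v, MvPolynomial.eval v Jd = (jac F v).det := by
    intro v
    change MvPolynomial.eval v (Matrix.det _) = _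
    rw [RingHom.map_det]
    rfl
  let W : MvPolynomial (Fin N) ℂ := ker P S * ∏ j, ker (Q j) (U j)
  obtain ⟨k, R, hR⟩ : ∃ (k : ℕ) (R : MvPolynomial (Fin N) ℂ), ∀ v ∈ X,
      MvPolynomial.eval v W ^ k = MvPolynomial.eval v Jd * MvPolynomial.eval v R := by
    have h1 : W ∈ (Ideal.span (insert Jd I)).radical := by
      rw [← MvPolynomial.vanishingIdeal_zeroLocus_eq_radical (K := ℂ), MvPolynomial.mem_vanishingIdeal_iff]
      intro v hv
      rw [MvPolynomial.mem_zeroLocus_iff] at hv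
      have h2 : MvPolynomial.eval v Jd = 0 := hv Jd (Ideal.subset_span (Set.mem_insert _ _))
      have hvX : v ∈ X := by
        rw [hX]
        intro f hf
        exact hv f (Ideal.subset_span (Set.mem_insert_of_mem _ hf))
      rw [hJd] at h2
      have h3 : MvPolynomial.eval v W = 0 := by
        rw [map_mul, map_prod]
        rcases hcrit v hvX h2 with h4 | ⟨j, h4⟩
        · rw [eval_ker, Finset.prod_eq_zero h4 (sub_self _), zero_mul]
        · rw [Finset.prod_eq_zero (Finset.mem_univ j), mul_zero]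
          rw [eval_ker, Finset.prod_eq_zero h4 (sub_self _)]
      exact h3
    obtain ⟨k, hk⟩ := h1
    rw [Ideal.mem_span_insert] at hk
    obtain ⟨R, i, hi, hR⟩ := hk
    refine ⟨k, R, fun v hv => ?_⟩
    have h2 : MvPolynomial.eval v i = 0 := by
      have h3 : Ideal.span I ≤ RingHom.ker (MvPolynomial.eval v) := by
        rw [Ideal.span_le]
        intro f hf
        rw [hX] at hv
        exact hv f hf
      exact h3 hi
    rw [← map_pow, hR, map_add, map_mul, h2, add_zero, mul_comm]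
  -- the finite sets
  have hinv : ∀ j, ∀ s ∈ U j, ∃ T : Finset ℂ, (∀ n, (fun y => (h j).eval y)^[n] s ∈ T) ∧
      ∀ n, ∀ s' ∈ U j, ((fun y => (h j).eval y)^[n] s - s')⁻¹ ∈ T := fun j s hs =>
    exists_inv_set _ s (hfin j s hs) (U j)
  choose T₁ hT₁ hT₁' using hinv
  let TF : Finset ℂ := Finset.univ.biUnion fun i => (F i).support.image (F i).coeff
  let TR : Finset ℂ := R.support.image R.coeff
  let Tα : Finset ℂ := Finset.univ.image α
  let Th : Finset ℂ := Finset.univ.biUnion fun j => (h j).support.image (h j).coeff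
  let TU : Finset ℂ := Finset.univ.biUnion fun j => (U j).attach.biUnion fun s => T₁ j s s.2
  let TQ : Finset ℂ := Finset.univ.image fun j => MvPolynomial.eval α (Q j)
  obtain ⟨p, hp, τ, hτ, n₁, hn₁⟩ := base (TF ∪ (TR ∪ (Tα ∪ (Th ∪ (TU ∪ TQ))))) S
    (MvPolynomial.eval α P) hg (by
      have h1 : {n | (fun y => g.eval y)^[n] (MvPolynomial.eval α P) ∈ S} =
          {n | MvPolynomial.eval ((pt F)^[n] α) P ∈ S} := by
        ext n
        rw [Set.mem_ofPred_eq, Set.mem_ofPred_eq, semi_iter hinv hsemi hαX]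
      rw [h1]
      exact hα)
  have hF : ∀ i κ, ‖τ ((F i).coeff κ)‖ ≤ 1 := by
    intro i κ
    by_cases hκ : κ ∈ (F i).support
    · apply hτ
      simp only [Finset.mem_union]
      left
      exact Finset.mem_biUnion.2 ⟨i, Finset.mem_univ i, Finset.mem_image.2 ⟨κ, hκ, rfl⟩⟩
    · rw [MvPolynomial.notMem_support_iff.1 hκ, map_zero, norm_zero]
      exact zero_le_one
  have hRτ : ∀ κ, ‖τ (R.coeff κ)‖ ≤ 1 := by
    intro κ
    by_cases hκ : κ ∈ R.support
    · apply hτ
      simp only [Finset.mem_union]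
      right; left
      exact Finset.mem_image.2 ⟨κ, hκ, rfl⟩
    · rw [MvPolynomial.notMem_support_iff.1 hκ, map_zero, norm_zero]
      exact zero_le_one
  have hατ : ∀ i, ‖τ (α i)‖ ≤ 1 := by
    intro i
    apply hτ
    simp only [Finset.mem_union]
    right; right; left
    exact Finset.mem_image.2 ⟨i, Finset.mem_univ i, rfl⟩
  have hhτ : ∀ j i, ‖τ ((h j).coeff i)‖ ≤ 1 := by
    intro j i
    by_cases hi : i ∈ (h j).support
    · apply hτ
      simp only [Finset.mem_union]
      right; right; right; left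
      exact Finset.mem_biUnion.2 ⟨j, Finset.mem_univ j, Finset.mem_image.2 ⟨i, hi, rfl⟩⟩
    · rw [notMem_support_iff.1 hi, map_zero, norm_zero]
      exact zero_le_one
  have hUτ : ∀ j s (hs : s ∈ U j), ∀ t ∈ T₁ j s hs, ‖τ t‖ ≤ 1 := by
    intro j s hs t ht
    apply hτ
    simp only [Finset.mem_union]
    right; right; right; right; left
    exact Finset.mem_biUnion.2 ⟨j, Finset.mem_univ j,
      Finset.mem_biUnion.2 ⟨⟨s, hs⟩, Finset.mem_attach _ _, ht⟩⟩
  have hQτ : ∀ j, ‖τ (MvPolynomial.eval α (Q j))‖ ≤ 1 := by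
    intro j
    apply hτ
    simp only [Finset.mem_union]
    right; right; right; right; right
    exact Finset.mem_image.2 ⟨j, Finset.mem_univ j, rfl⟩
  -- the orbit is integral
  have horb : ∀ n i, ‖τ ((pt F)^[n] α i)‖ ≤ 1 := by
    intro n
    induction n with
    | zero => exact hατ
    | succ n ih =>
      intro i
      rw [Function.iterate_succ_apply']
      exact norm_eval_mv_le τ (F i) (hF i) _ ih
  -- the other semiconjugacies
  have hj : ∀ j, ∃ m, ∀ n, m ≤ n → ∀ s ∈ U j,
      ‖τ (MvPolynomial.eval ((pt F)^[n] α) (Q j) - s)‖ = 1 := by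
    intro j
    have hUj : ∀ s ∈ U j, ‖τ s‖ ≤ 1 := fun s hs => hUτ j s hs _ (hT₁ j s hs 0)
    have hint : ∀ n, ‖τ (MvPolynomial.eval ((pt F)^[n] α) (Q j))‖ ≤ 1 := by
      intro n
      rw [semi_iter hinv (hsemi' j) hαX]
      induction n with
      | zero => exact hQτ j
      | succ n ih =>
        rw [Function.iterate_succ_apply']
        exact norm_eval_le τ (hhτ j) ih
    by_cases hmeet : ∃ n, ∃ s ∈ U j, ‖τ (MvPolynomial.eval ((pt F)^[n] α) (Q j) - s)‖ < 1
    · obtain ⟨n, s, hs, hlt⟩ := hmeet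
      obtain ⟨n0, hn0⟩ := (hret j s hs).bddAbove
      refine ⟨n + (n0 + 1), fun k hk s' hs' => ?_⟩
      have h1 : MvPolynomial.eval ((pt F)^[k] α) (Q j) =
          (fun y => (h j).eval y)^[k - n] (MvPolynomial.eval ((pt F)^[n] α) (Q j)) := by
        rw [semi_iter hinv (hsemi' j) hαX, semi_iter hinv (hsemi' j) hαX,
          ← Function.iterate_add_apply]
        congr 1
        omega
      rw [h1]
      refine avoid_of_close τ (hhτ j) hUj (hint n) (hUj s hs) hlt (n0 + 1) ?_ ?_ _ (by omega) s' hs'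
      · intro i hi s'' hs'' h2
        have h3 : i ∈ {n | (fun y => (h j).eval y)^[n] s ∈ U j} := by
          rw [Set.mem_ofPred_eq, h2]
          exact hs''
        have := hn0 h3
        omega
      · intro i _ s'' hs''
        exact hUτ j s hs _ (hT₁' j s hs i s'' hs'')
    · push Not at hmeet
      refine ⟨0, fun n _ s hs => le_antisymm ?_ (hmeet n s hs)⟩
      rw [map_sub]
      exact (norm_sub_le_max' _ _).trans (max_le (hint n) (hUj s hs))
  choose m hm using hj
  refine etale_ret τ F α hF hατ (n₁ + ∑ j, m j) (fun n hn => ?_) V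
  have hle : ∀ j, m j ≤ n := fun j => by
    have := Finset.single_le_sum (f := m) (fun _ _ => Nat.zero_le _) (Finset.mem_univ j)
    omega
  -- `W` is a unit
  have hW : ‖τ (MvPolynomial.eval ((pt F)^[n] α) W)‖ = 1 := by
    rw [map_mul, map_prod, map_mul, map_prod, norm_mul, norm_prod, eval_ker, map_prod, norm_prod]
    have e1 : ∏ s ∈ S, ‖τ (MvPolynomial.eval ((pt F)^[n] α) P - s)‖ = 1 := by
      apply Finset.prod_eq_one
      intro s hs
      rw [semi_iter hinv hsemi hαX]
      exact hn₁ n (by omega) s hs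
    have e2 : ∏ j, ‖τ (MvPolynomial.eval ((pt F)^[n] α) (ker (Q j) (U j)))‖ = 1 := by
      apply Finset.prod_eq_one
      intro j _
      rw [eval_ker, map_prod, norm_prod]
      apply Finset.prod_eq_one
      intro s hs
      exact hm j n (hle j) s hs
    rw [e1, e2, one_mul]
  have h1 := congrArg (fun z => ‖τ z‖) (hR _ (iter_mem hinv hαX n))
  beta_reduce at h1
  rw [map_pow, norm_pow, hW, one_pow, map_mul, norm_mul, hJd] at h1
  have h2 : ‖τ (MvPolynomial.eval ((pt F)^[n] α) R)‖ ≤ 1 :=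
    norm_eval_mv_le τ R hRτ _ (horb n)
  have h3 : ‖τ (jac F ((pt F)^[n] α)).det‖ ≤ 1 := by
    rw [Matrix.det_apply, map_sum]
    refine sum_le _ _ zero_le_one fun σ _ => ?_
    have h4 : ‖τ (∏ i, jac F ((pt F)^[n] α) (σ i) i)‖ ≤ 1 := by
      rw [map_prod, norm_prod]
      refine Finset.prod_le_one (fun _ _ => norm_nonneg _) fun i _ => ?_
      refine norm_eval_mv_le τ _ (fun κ => ?_) _ (horb n)
      rw [MvPolynomial.coeff_pderiv, map_mul, norm_mul]
      refine mul_le_one₀ (hF _ _) (norm_nonneg _) ?_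
      rw [map_add, map_one, map_natCast]
      have := (norm_int (p := p) ((κ i : ℤ) + 1)).le.trans (Padic.norm_int_le_one _)
      push_cast at this
      exact this
    rcases Int.units_eq_one_or (Equiv.Perm.sign σ) with hσ | hσ
    · rw [hσ, one_smul]
      exact h4
    · rw [hσ, Units.neg_smul, one_smul, map_neg, norm_neg]
      exact h4
  refine le_antisymm h3 ?_
  rw [h1]
  exact mul_le_of_le_one_right (norm_nonneg _) h2

end Pool.Agent.T2H63.DML
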