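import Pool.Agent.T2H63.DML.Main

/-!
Transfer of inclusions between closed sets to almost all residue characteristics, and the return
sets of polynomial self-maps whose critical locus is strictly preperiodic.
-/

set_option autoImplicit false

namespace Pool.Agent.T2H63.DML

open MvPolynomial Pool.Agent.H936R2 Pool.Agent.TH838.PR Pool.Agent.Y199.DM

variable {N : ℕ}

theorem small_of_span (G : Set (MvPolynomial (Fin N) ℂ)) {u : MvPolynomial (Fin N) ℂ}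
    (hu : u ∈ Ideal.span G) : ∃ T : Finset ℂ, ∀ (p : ℕ) [Fact p.Prime] (τ : ℂ →+* PadicAlgCl p),
      (∀ t ∈ T, ‖τ t‖ ≤ 1) → ∀ v : Fin N → ℂ, (∀ i, ‖τ (v i)‖ ≤ 1) →
      (∀ g ∈ G, ‖τ (eval v g)‖ < 1) → ‖τ (eval v u)‖ < 1 := by
  classical
  induction hu using Submodule.span_induction with
  | mem x hx => exact ⟨∅, fun p _ τ _ v _ h => h x hx⟩
  | zero => exact ⟨∅, fun p _ τ _ v _ h => by rw [map_zero, map_zero, norm_zero]; exact one_pos⟩
  | add x y _ _ hx hy =>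
    obtain ⟨T1, h1⟩ := hx
    obtain ⟨T2, h2⟩ := hy
    refine ⟨T1 ∪ T2, fun p _ τ hτ v hv h => ?_⟩
    rw [map_add, map_add]
    exact (IsUltrametricDist.norm_add_le_max _ _).trans_lt (max_lt
      (h1 p τ (fun t ht => hτ t (Finset.mem_union_left _ ht)) v hv h)
      (h2 p τ (fun t ht => hτ t (Finset.mem_union_right _ ht)) v hv h))
  | smul a x _ hx =>
    obtain ⟨T1, h1⟩ := hx
    refine ⟨T1 ∪ a.support.image a.coeff, fun p _ τ hτ v hv h => ?_⟩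
    rw [smul_eq_mul, map_mul, map_mul, norm_mul]
    have h2 := h1 p τ (fun t ht => hτ t (Finset.mem_union_left _ ht)) v hv h
    have h3 : ‖τ (eval v a)‖ ≤ 1 := by
      refine norm_eval_mv_le τ a (fun κ => ?_) v hv
      by_cases hκ : κ ∈ a.support
      · exact hτ _ (Finset.mem_union_right _ (Finset.mem_image.2 ⟨κ, hκ, rfl⟩))
      · rw [notMem_support_iff.1 hκ, map_zero, norm_zero]
        exact zero_le_one
    exact (mul_le_of_le_one_left (norm_nonneg _) h3).trans_lt h2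

/-- If `f` vanishes on the common zeros of `I` and `G` then for almost all residue characteristics
`f` is small at the common zeros of `I` at which all members of `G` are small. -/
theorem transfer (I G : Set (MvPolynomial (Fin N) ℂ)) (f : MvPolynomial (Fin N) ℂ)
    (hf : ∀ v : Fin N → ℂ, (∀ i ∈ I, eval v i = 0) → (∀ g ∈ G, eval v g = 0) → eval v f = 0) :
    ∃ T : Finset ℂ, ∀ (p : ℕ) [Fact p.Prime] (τ : ℂ →+* PadicAlgCl p),
      (∀ t ∈ T, ‖τ t‖ ≤ 1) → ∀ v : Fin N → ℂ, (∀ i, ‖τ (v i)‖ ≤ 1) →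
      (∀ i ∈ I, eval v i = 0) → (∀ g ∈ G, ‖τ (eval v g)‖ < 1) → ‖τ (eval v f)‖ < 1 := by
  have h1 : f ∈ (Ideal.span (I ∪ G)).radical := by
    rw [← vanishingIdeal_zeroLocus_eq_radical (K := ℂ), mem_vanishingIdeal_iff]
    intro v hv
    rw [mem_zeroLocus_iff] at hv
    exact hf v (fun i hi => hv i (Ideal.subset_span (Or.inl hi)))
      (fun g hg => hv g (Ideal.subset_span (Or.inr hg)))
  obtain ⟨k, hk⟩ := h1
  rw [Ideal.span_union, Submodule.mem_sup] at hk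
  obtain ⟨i, hi, u, hu, hiu⟩ := hk
  obtain ⟨T, hT⟩ := small_of_span G hu
  refine ⟨T, fun p _ τ hτ v hv hI hG => ?_⟩
  have h2 : eval v i = 0 := by
    have h3 : Ideal.span I ≤ RingHom.ker (eval v) := by
      rw [Ideal.span_le]
      intro g hg
      exact hI g hg
    exact h3 hi
  have h3 := hT p τ hτ v hv hG
  have h4 : eval v f ^ k = eval v u := by
    rw [← map_pow, ← hiu, map_add, h2, zero_add]
  rw [← h4, map_pow, norm_pow] at h3
  by_contra hcon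
  push Not at hcon
  exact absurd h3 (not_lt.2 (one_le_pow₀ hcon))

/-- Hilbert's basis theorem for zero sets. -/
theorem finite_eqs (I : Set (MvPolynomial (Fin N) ℂ)) : ∃ I₀ : Finset (MvPolynomial (Fin N) ℂ),
    ∀ v : Fin N → ℂ, (∀ i ∈ I, eval v i = 0) ↔ ∀ i ∈ I₀, eval v i = 0 := by
  obtain ⟨I₀, hI₀⟩ := (isNoetherianRing_iff_ideal_fg _).1
    (inferInstance : IsNoetherianRing (MvPolynomial (Fin N) ℂ)) (Ideal.span I)
  refine ⟨I₀, fun v => ?_⟩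
  have h : ∀ J : Set (MvPolynomial (Fin N) ℂ), (∀ i ∈ J, eval v i = 0) ↔
      Ideal.span J ≤ RingHom.ker (eval v) := by
    intro J
    rw [Ideal.span_le]
    rfl
  rw [h I, ← hI₀]
  exact (h _).symm

theorem eval_bind (F : Fin N → MvPolynomial (Fin N) ℂ) (f : MvPolynomial (Fin N) ℂ)
    (v : Fin N → ℂ) : eval v (bind₁ F f) = eval (pt F v) f := by
  exact eval₂Hom_bind₁ (RingHom.id ℂ) v F f

theorem eval_bind_iter (F : Fin N → MvPolynomial (Fin N) ℂ) (f : MvPolynomial (Fin N) ℂ)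
    (m : ℕ) (v : Fin N → ℂ) : eval v ((bind₁ F)^[m] f) = eval ((pt F)^[m] v) f := by
  induction m generalizing v with
  | zero => rfl
  | succ m ih => rw [Function.iterate_succ_apply', eval_bind, ih, Function.iterate_succ_apply]

/-- Return sets of maps with strictly preperiodic critical locus. -/
theorem strict {N : ℕ} (F : Fin N → MvPolynomial (Fin N) ℂ) (I : Set (MvPolynomial (Fin N) ℂ))
    (X : Set (Fin N → ℂ)) (hX : X = {v | ∀ f ∈ I, eval v f = 0})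
    (hinv : ∀ v ∈ X, pt F v ∈ X) {r : ℕ} (IC IY : Fin r → Set (MvPolynomial (Fin N) ℂ))
    (C Y : Fin r → Set (Fin N → ℂ)) (hC : ∀ j, C j = {v | ∀ f ∈ IC j, eval v f = 0})
    (hY : ∀ j, Y j = {v | ∀ f ∈ IY j, eval v f = 0})
    (hYinv : ∀ j, ∀ v ∈ X, v ∈ Y j → pt F v ∈ Y j) (m : Fin r → ℕ)
    (hm : ∀ j, ∀ v ∈ X, v ∈ C j → (pt F)^[m j] v ∈ Y j)
    (hdisj : ∀ j, ∀ v ∈ X, v ∈ C j → v ∉ Y j)
    (hcrit : ∀ v ∈ X, (jac F v).det = 0 → ∃ j, v ∈ C j)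
    (α : Fin N → ℂ) (hαX : α ∈ X) (V : Set (MvPolynomial (Fin N) ℂ)) :
    FinAP {n : ℕ | ∀ f ∈ V, eval ((pt F)^[n] α) f = 0} := by
  classical
  choose C₀ hC₀ using fun j => finite_eqs (IC j)
  choose Y₀ hY₀ using fun j => finite_eqs (IY j)
  have hC' : ∀ j v, v ∈ C j ↔ ∀ f ∈ C₀ j, eval v f = 0 := fun j v => by
    rw [hC j]
    exact hC₀ j v
  have hY' : ∀ j v, v ∈ Y j ↔ ∀ f ∈ Y₀ j, eval v f = 0 := fun j v => by
    rw [hY j]
    exact hY₀ j v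
  have hX' : ∀ v, v ∈ X ↔ ∀ f ∈ I, eval v f = 0 := fun v => by
    rw [hX]
    rfl
  let Jd : MvPolynomial (Fin N) ℂ := (Matrix.of fun i j => pderiv j (F i)).det
  have hJd : ∀ v, eval v Jd = (jac F v).det := by
    intro v
    change eval v (Matrix.det _) = _
    rw [RingHom.map_det]
    rfl
  -- transfer of the four kinds of inclusions
  have t1 : ∀ l : Fin r → MvPolynomial (Fin N) ℂ, l ∈ Fintype.piFinset C₀ →
      ∃ T : Finset ℂ, ∀ (p : ℕ) [Fact p.Prime] (τ : ℂ →+* PadicAlgCl p),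
      (∀ t ∈ T, ‖τ t‖ ≤ 1) → ∀ v : Fin N → ℂ, (∀ i, ‖τ (v i)‖ ≤ 1) →
      (∀ i ∈ I, eval v i = 0) → (∀ g ∈ ({Jd} : Set (MvPolynomial (Fin N) ℂ)), ‖τ (eval v g)‖ < 1) →
        ‖τ (eval v (∏ j, l j))‖ < 1 := by
    intro l hl
    apply transfer
    intro v hv hg
    have h1 := hg Jd rfl
    rw [hJd] at h1
    obtain ⟨j, hj⟩ := hcrit v ((hX' v).2 hv) h1
    rw [map_prod]
    exact Finset.prod_eq_zero (Finset.mem_univ j)
      ((hC' j v).1 hj _ (Fintype.mem_piFinset.1 hl j))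
  have t2 : ∀ j, ∀ f ∈ Y₀ j, ∃ T : Finset ℂ, ∀ (p : ℕ) [Fact p.Prime] (τ : ℂ →+* PadicAlgCl p),
      (∀ t ∈ T, ‖τ t‖ ≤ 1) → ∀ v : Fin N → ℂ, (∀ i, ‖τ (v i)‖ ≤ 1) →
      (∀ i ∈ I, eval v i = 0) → (∀ g ∈ (C₀ j : Set (MvPolynomial (Fin N) ℂ)), ‖τ (eval v g)‖ < 1) →
        ‖τ (eval v ((bind₁ F)^[m j] f))‖ < 1 := by
    intro j f hf
    apply transfer
    intro v hv hg
    rw [eval_bind_iter]
    exact (hY' j _).1 (hm j v ((hX' v).2 hv) ((hC' j v).2 fun g h => hg g (Finset.mem_coe.2 h))) f hf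
  have t3 : ∀ j, ∀ f ∈ Y₀ j, ∃ T : Finset ℂ, ∀ (p : ℕ) [Fact p.Prime] (τ : ℂ →+* PadicAlgCl p),
      (∀ t ∈ T, ‖τ t‖ ≤ 1) → ∀ v : Fin N → ℂ, (∀ i, ‖τ (v i)‖ ≤ 1) →
      (∀ i ∈ I, eval v i = 0) → (∀ g ∈ (Y₀ j : Set (MvPolynomial (Fin N) ℂ)), ‖τ (eval v g)‖ < 1) →
        ‖τ (eval v (bind₁ F f))‖ < 1 := by
    intro j f hf
    apply transfer
    intro v hv hg
    rw [eval_bind]
    exact (hY' j _).1 (hYinv j v ((hX' v).2 hv) ((hY' j v).2 fun g h => hg g (Finset.mem_coe.2 h)))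
      f hf
  have t4 : ∀ j, ∃ T : Finset ℂ, ∀ (p : ℕ) [Fact p.Prime] (τ : ℂ →+* PadicAlgCl p),
      (∀ t ∈ T, ‖τ t‖ ≤ 1) → ∀ v : Fin N → ℂ, (∀ i, ‖τ (v i)‖ ≤ 1) →
      (∀ i ∈ I, eval v i = 0) → (∀ g ∈ ((C₀ j : Set (MvPolynomial (Fin N) ℂ)) ∪ Y₀ j),
        ‖τ (eval v g)‖ < 1) → ‖τ (eval v (1 : MvPolynomial (Fin N) ℂ))‖ < 1 := by
    intro j
    apply transfer
    intro v hv hg
    exact absurd ((hY' j v).2 fun g h => hg g (Or.inr (Finset.mem_coe.2 h)))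
      (hdisj j v ((hX' v).2 hv) ((hC' j v).2 fun g h => hg g (Or.inl (Finset.mem_coe.2 h))))
  choose T1 h1 using t1
  choose T2 h2 using t2
  choose T3 h3 using t3
  choose T4 h4 using t4
  let TF : Finset ℂ := Finset.univ.biUnion fun i => (F i).support.image (F i).coeff
  let Tα : Finset ℂ := Finset.univ.image α
  let TT1 : Finset ℂ := (Fintype.piFinset C₀).attach.biUnion fun l => T1 l.1 l.2
  let TT2 : Finset ℂ := Finset.univ.biUnion fun j => (Y₀ j).attach.biUnion fun f => T2 j f.1 f.2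
  let TT3 : Finset ℂ := Finset.univ.biUnion fun j => (Y₀ j).attach.biUnion fun f => T3 j f.1 f.2
  let TT4 : Finset ℂ := Finset.univ.biUnion T4
  obtain ⟨D, hD⟩ := emb_finite (TF ∪ (Tα ∪ (TT1 ∪ (TT2 ∪ (TT3 ∪ TT4)))))
  obtain ⟨p, hpD, hp⟩ := Nat.exists_infinite_primes (D + 1)
  have hpf : Fact p.Prime := ⟨hp⟩
  obtain ⟨τ, hτ⟩ := hD p (by omega)
  simp only [Finset.mem_union] at hτ
  have hF : ∀ i κ, ‖τ ((F i).coeff κ)‖ ≤ 1 := by
    intro i κ
    by_cases hκ : κ ∈ (F i).support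
    · apply hτ
      left
      exact Finset.mem_biUnion.2 ⟨i, Finset.mem_univ i, Finset.mem_image.2 ⟨κ, hκ, rfl⟩⟩
    · rw [notMem_support_iff.1 hκ, map_zero, norm_zero]
      exact zero_le_one
  have hατ : ∀ i, ‖τ (α i)‖ ≤ 1 := fun i =>
    hτ _ (Or.inr (Or.inl (Finset.mem_image.2 ⟨i, Finset.mem_univ i, rfl⟩)))
  have hτ1 : ∀ l (hl : l ∈ Fintype.piFinset C₀), ∀ t ∈ T1 l hl, ‖τ t‖ ≤ 1 := fun l hl t ht =>
    hτ _ (Or.inr (Or.inr (Or.inl (Finset.mem_biUnion.2 ⟨⟨l, hl⟩, Finset.mem_attach _ _, ht⟩))))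
  have hτ2 : ∀ j f (hf : f ∈ Y₀ j), ∀ t ∈ T2 j f hf, ‖τ t‖ ≤ 1 := fun j f hf t ht =>
    hτ _ (Or.inr (Or.inr (Or.inr (Or.inl (Finset.mem_biUnion.2 ⟨j, Finset.mem_univ j,
      Finset.mem_biUnion.2 ⟨⟨f, hf⟩, Finset.mem_attach _ _, ht⟩⟩)))))
  have hτ3 : ∀ j f (hf : f ∈ Y₀ j), ∀ t ∈ T3 j f hf, ‖τ t‖ ≤ 1 := fun j f hf t ht =>
    hτ _ (Or.inr (Or.inr (Or.inr (Or.inr (Or.inl (Finset.mem_biUnion.2 ⟨j, Finset.mem_univ j,
      Finset.mem_biUnion.2 ⟨⟨f, hf⟩, Finset.mem_attach _ _, ht⟩⟩))))))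
  have hτ4 : ∀ j, ∀ t ∈ T4 j, ‖τ t‖ ≤ 1 := fun j t ht =>
    hτ _ (Or.inr (Or.inr (Or.inr (Or.inr (Or.inr (Finset.mem_biUnion.2
      ⟨j, Finset.mem_univ j, ht⟩))))))
  -- the orbit
  have horb : ∀ n i, ‖τ ((pt F)^[n] α i)‖ ≤ 1 := by
    intro n
    induction n with
    | zero => exact hατ
    | succ n ih =>
      intro i
      rw [Function.iterate_succ_apply']
      exact norm_eval_mv_le τ (F i) (hF i) _ ih
  have horbX : ∀ n, ∀ f ∈ I, eval ((pt F)^[n] α) f = 0 := fun n =>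
    (hX' _).1 (iter_mem hinv hαX n)
  have hsm : ∀ n, (∀ g ∈ ({Jd} : Set (MvPolynomial (Fin N) ℂ)),
      ‖τ (eval ((pt F)^[n] α) g)‖ < 1) →
      ∃ j, ∀ f ∈ C₀ j, ‖τ (eval ((pt F)^[n] α) f)‖ < 1 := by
    intro n hn
    by_contra hcon
    push Not at hcon
    choose l hl hl' using hcon
    have hlp : l ∈ Fintype.piFinset C₀ := Fintype.mem_piFinset.2 hl
    have h5 := h1 l hlp p τ (hτ1 l hlp) _ (horb n) (horbX n) hn
    rw [map_prod, map_prod, norm_prod] at h5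
    have h6 : (1 : ℝ) ≤ ∏ j, ‖τ (eval ((pt F)^[n] α) (l j))‖ := by
      calc (1 : ℝ) = ∏ _j : Fin r, (1 : ℝ) := by rw [Finset.prod_const_one]
        _ ≤ _ := Finset.prod_le_prod (fun _ _ => zero_le_one) fun j _ => hl' j
    linarith
  have hsY : ∀ j n, (∀ f ∈ C₀ j, ‖τ (eval ((pt F)^[n] α) f)‖ < 1) →
      ∀ k, n + m j ≤ k → ∀ f ∈ Y₀ j, ‖τ (eval ((pt F)^[k] α) f)‖ < 1 := by
    intro j n hn k hk
    induction k, hk using Nat.le_induction with
    | base =>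
      intro f hf
      have h5 := h2 j f hf p τ (hτ2 j f hf) _ (horb n) (horbX n)
        (fun g hg => hn g (Finset.mem_coe.1 hg))
      rw [eval_bind_iter, ← Function.iterate_add_apply, add_comm] at h5
      exact h5
    | succ k hk ih =>
      intro f hf
      have h5 := h3 j f hf p τ (hτ3 j f hf) _ (horb k) (horbX k)
        (fun g hg => ih g (Finset.mem_coe.1 hg))
      rw [eval_bind, ← Function.iterate_succ_apply' (pt F) k α] at h5
      exact h5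
  have hnot : ∀ j n, (∀ f ∈ C₀ j, ‖τ (eval ((pt F)^[n] α) f)‖ < 1) →
      ∀ k, n + m j ≤ k → ¬ ∀ f ∈ C₀ j, ‖τ (eval ((pt F)^[k] α) f)‖ < 1 := by
    intro j n hn k hk hk'
    have h5 := h4 j p τ (hτ4 j) _ (horb k) (horbX k) (by
      rintro g (hg | hg)
      · exact hk' g (Finset.mem_coe.1 hg)
      · exact hsY j n hn k hk g (Finset.mem_coe.1 hg))
    rw [map_one, map_one, norm_one] at h5
    exact lt_irrefl _ h5
  have hbd : ∀ j, ∃ b, ∀ k, b ≤ k → ¬ ∀ f ∈ C₀ j, ‖τ (eval ((pt F)^[k] α) f)‖ < 1 := by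
    intro j
    by_cases hex : ∃ n, ∀ f ∈ C₀ j, ‖τ (eval ((pt F)^[n] α) f)‖ < 1
    · obtain ⟨n, hn⟩ := hex
      exact ⟨n + m j, hnot j n hn⟩
    · rw [not_exists] at hex
      exact ⟨0, fun k _ => hex k⟩
  choose b hb using hbd
  refine etale_ret τ F α hF hατ (∑ j, b j) (fun n hn => ?_) V
  by_contra hcon
  have hle1 : ‖τ (jac F ((pt F)^[n] α)).det‖ ≤ 1 := by
    rw [Matrix.det_apply, map_sum]
    refine sum_le _ _ zero_le_one fun σ _ => ?_
    have h5 : ‖τ (∏ i, jac F ((pt F)^[n] α) (σ i) i)‖ ≤ 1 := by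
      rw [map_prod, norm_prod]
      refine Finset.prod_le_one (fun _ _ => norm_nonneg _) fun i _ => ?_
      refine norm_eval_mv_le τ _ (fun κ => ?_) _ (horb n)
      rw [coeff_pderiv, map_mul, norm_mul]
      refine mul_le_one₀ (hF _ _) (norm_nonneg _) ?_
      rw [map_add, map_one, map_natCast]
      have := (norm_int (p := p) ((κ i : ℤ) + 1)).le.trans (Padic.norm_int_le_one _)
      push_cast at this
      exact this
    rcases Int.units_eq_one_or (Equiv.Perm.sign σ) with hσ | hσ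
    · rw [hσ, one_smul]
      exact h5
    · rw [hσ, Units.neg_smul, one_smul, map_neg, norm_neg]
      exact h5
  have hlt := lt_of_le_of_ne hle1 hcon
  obtain ⟨j, hj⟩ := hsm n (by
    intro g hg
    rw [Set.mem_singleton_iff.1 hg, hJd]
    exact hlt)
  refine hb j n ?_ hj
  have := Finset.single_le_sum (f := b) (fun _ _ => Nat.zero_le _) (Finset.mem_univ j)
  omega

end Pool.Agent.T2H63.DML
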