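import Pool.Agent.T2H63.DML.Enter
import Pool.Agent.T2H63.DML.Trans

/-!
Return sets of polynomial self-maps semiconjugate to a polynomial in one variable, if the critical
points over one cycle of this polynomial are strictly preperiodic.
-/

set_option autoImplicit false

namespace Pool.Agent.T2H63.DML

open MvPolynomial Pool.Agent.H936R2 Pool.Agent.TH838.PR Pool.Agent.Y199.DM

variable {N : ℕ}

theorem perturb (F : Fin N → MvPolynomial (Fin N) ℂ) (I : Set (MvPolynomial (Fin N) ℂ))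
    (X : Set (Fin N → ℂ)) (hX : X = {v | ∀ f ∈ I, eval v f = 0})
    (hinv : ∀ v ∈ X, pt F v ∈ X) (P : MvPolynomial (Fin N) ℂ) (g : Polynomial ℂ)
    (hsemi : ∀ v ∈ X, eval (pt F v) P = g.eval (eval v P))
    (O : Finset ℂ) (hO : ∀ o ∈ O, g.eval o ∈ O) (ξ ζ : ℂ) (hζξ : ζ ≠ ξ) (hξO : g.eval ξ ∈ O)
    (hζO : g.eval ζ ∈ O)
    {r : ℕ} (IC IY : Fin r → Set (MvPolynomial (Fin N) ℂ))
    (C Y : Fin r → Set (Fin N → ℂ)) (hC : ∀ j, C j = {v | ∀ f ∈ IC j, eval v f = 0})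
    (hY : ∀ j, Y j = {v | ∀ f ∈ IY j, eval v f = 0})
    (hYinv : ∀ j, ∀ v ∈ X, eval v P ∈ O → v ∈ Y j → pt F v ∈ Y j) (m : Fin r → ℕ)
    (hm : ∀ j, ∀ v ∈ X, eval v P ∈ O → v ∈ C j → (pt F)^[m j] v ∈ Y j)
    (hdisj : ∀ j, ∀ v ∈ X, eval v P ∈ O → v ∈ C j → v ∉ Y j)
    (hcrit : ∀ v ∈ X, eval v P ∈ O → (jac F v).det = 0 → ∃ j, v ∈ C j)
    (α : Fin N → ℂ) (hαX : α ∈ X)
    (hinj : Function.Injective fun n => (fun y => g.eval y)^[n] (eval α P))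
    (V : Set (MvPolynomial (Fin N) ℂ)) :
    FinAP {n : ℕ | ∀ f ∈ V, eval ((pt F)^[n] α) f = 0} := by
  classical
  choose C₀ hC₀ using fun j => finite_eqs (IC j)
  choose Y₀ hY₀ using fun j => finite_eqs (IY j)
  have hC' : ∀ j v, v ∈ C j ↔ ∀ f ∈ C₀ j, eval v f = 0 := fun j v => by
    rw [hC j]
    exact hC₀ j v
  have hY' : ∀ j v, v ∈ Y j ↔ ∀ f ∈ Y₀ j, eval v f = 0 := fun j v => by
    rw [hY j]
    exact hY₀ j v
  have hX' : ∀ v, v ∈ X ↔ ∀ f ∈ I, eval v f = 0 := fun v => by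
    rw [hX]
    rfl
  have hW : ∀ v, eval v (ker P O) = 0 → eval v P ∈ O := by
    intro v hv
    rw [eval_ker, Finset.prod_eq_zero_iff] at hv
    obtain ⟨o, ho, h⟩ := hv
    rwa [sub_eq_zero.1 h]
  let Jd : MvPolynomial (Fin N) ℂ := (Matrix.of fun i j => pderiv j (F i)).det
  have hJd : ∀ v, eval v Jd = (jac F v).det := by
    intro v
    change eval v (Matrix.det _) = _
    rw [RingHom.map_det]
    rfl
  -- transfer of the four kinds of inclusions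
  have t1 : ∀ l : Fin r → MvPolynomial (Fin N) ℂ, l ∈ Fintype.piFinset C₀ →
      ∃ T : Finset ℂ, ∀ (p : ℕ) [Fact p.Prime] (τ : ℂ →+* PadicAlgCl p),
      (∀ t ∈ T, ‖τ t‖ ≤ 1) → ∀ v : Fin N → ℂ, (∀ i, ‖τ (v i)‖ ≤ 1) →
      (∀ i ∈ I, eval v i = 0) → (∀ g ∈ ({Jd, ker P O} : Set (MvPolynomial (Fin N) ℂ)),
        ‖τ (eval v g)‖ < 1) → ‖τ (eval v (∏ j, l j))‖ < 1 := by
    intro l hl
    apply transfer
    intro v hv hg
    have h1 := hg Jd (Or.inl rfl)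
    rw [hJd] at h1
    obtain ⟨j, hj⟩ := hcrit v ((hX' v).2 hv) (hW v (hg _ (Or.inr rfl))) h1
    rw [map_prod]
    exact Finset.prod_eq_zero (Finset.mem_univ j)
      ((hC' j v).1 hj _ (Fintype.mem_piFinset.1 hl j))
  have t2 : ∀ j, ∀ f ∈ Y₀ j, ∃ T : Finset ℂ, ∀ (p : ℕ) [Fact p.Prime] (τ : ℂ →+* PadicAlgCl p),
      (∀ t ∈ T, ‖τ t‖ ≤ 1) → ∀ v : Fin N → ℂ, (∀ i, ‖τ (v i)‖ ≤ 1) →
      (∀ i ∈ I, eval v i = 0) → (∀ g ∈ insert (ker P O) (C₀ j : Set (MvPolynomial (Fin N) ℂ)),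
        ‖τ (eval v g)‖ < 1) → ‖τ (eval v ((bind₁ F)^[m j] f))‖ < 1 := by
    intro j f hf
    apply transfer
    intro v hv hg
    rw [eval_bind_iter]
    exact (hY' j _).1 (hm j v ((hX' v).2 hv) (hW v (hg _ (Set.mem_insert _ _)))
      ((hC' j v).2 fun g h => hg g (Set.mem_insert_of_mem _ (Finset.mem_coe.2 h)))) f hf
  have t3 : ∀ j, ∀ f ∈ Y₀ j, ∃ T : Finset ℂ, ∀ (p : ℕ) [Fact p.Prime] (τ : ℂ →+* PadicAlgCl p),
      (∀ t ∈ T, ‖τ t‖ ≤ 1) → ∀ v : Fin N → ℂ, (∀ i, ‖τ (v i)‖ ≤ 1) →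
      (∀ i ∈ I, eval v i = 0) → (∀ g ∈ insert (ker P O) (Y₀ j : Set (MvPolynomial (Fin N) ℂ)),
        ‖τ (eval v g)‖ < 1) → ‖τ (eval v (bind₁ F f))‖ < 1 := by
    intro j f hf
    apply transfer
    intro v hv hg
    rw [eval_bind]
    exact (hY' j _).1 (hYinv j v ((hX' v).2 hv) (hW v (hg _ (Set.mem_insert _ _)))
      ((hY' j v).2 fun g h => hg g (Set.mem_insert_of_mem _ (Finset.mem_coe.2 h)))) f hf
  have t4 : ∀ j, ∃ T : Finset ℂ, ∀ (p : ℕ) [Fact p.Prime] (τ : ℂ →+* PadicAlgCl p),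
      (∀ t ∈ T, ‖τ t‖ ≤ 1) → ∀ v : Fin N → ℂ, (∀ i, ‖τ (v i)‖ ≤ 1) →
      (∀ i ∈ I, eval v i = 0) →
      (∀ g ∈ insert (ker P O) ((C₀ j : Set (MvPolynomial (Fin N) ℂ)) ∪ Y₀ j),
        ‖τ (eval v g)‖ < 1) → ‖τ (eval v (1 : MvPolynomial (Fin N) ℂ))‖ < 1 := by
    intro j
    apply transfer
    intro v hv hg
    exact absurd ((hY' j v).2 fun g h =>
        hg g (Set.mem_insert_of_mem _ (Or.inr (Finset.mem_coe.2 h))))
      (hdisj j v ((hX' v).2 hv) (hW v (hg _ (Set.mem_insert _ _)))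
        ((hC' j v).2 fun g h => hg g (Set.mem_insert_of_mem _ (Or.inl (Finset.mem_coe.2 h)))))
  choose T1 h1 using t1
  choose T2 h2 using t2
  choose T3 h3 using t3
  choose T4 h4 using t4
  let TF : Finset ℂ := Finset.univ.biUnion fun i => (F i).support.image (F i).coeff
  let Tα : Finset ℂ := Finset.univ.image α
  let TT1 : Finset ℂ := (Fintype.piFinset C₀).attach.biUnion fun l => T1 l.1 l.2
  let TT2 : Finset ℂ := Finset.univ.biUnion fun j => (Y₀ j).attach.biUnion fun f => T2 j f.1 f.2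
  let TT3 : Finset ℂ := Finset.univ.biUnion fun j => (Y₀ j).attach.biUnion fun f => T3 j f.1 f.2
  let TT4 : Finset ℂ := Finset.univ.biUnion T4
  let TP : Finset ℂ := P.support.image P.coeff
  obtain ⟨p, hpf, τ, hτ, n₁, hn₁⟩ := base_enter
    (TF ∪ (Tα ∪ (TT1 ∪ (TT2 ∪ (TT3 ∪ (TT4 ∪ (TP ∪ O))))))) (eval α P) hinj O hO ξ ζ hζξ hξO hζO
  simp only [Finset.mem_union] at hτ
  have hF : ∀ i κ, ‖τ ((F i).coeff κ)‖ ≤ 1 := by
    intro i κ
    by_cases hκ : κ ∈ (F i).support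
    · apply hτ
      left
      exact Finset.mem_biUnion.2 ⟨i, Finset.mem_univ i, Finset.mem_image.2 ⟨κ, hκ, rfl⟩⟩
    · rw [notMem_support_iff.1 hκ, map_zero, norm_zero]
      exact zero_le_one
  have hP : ∀ κ, ‖τ (P.coeff κ)‖ ≤ 1 := by
    intro κ
    by_cases hκ : κ ∈ P.support
    · exact hτ _ (Or.inr (Or.inr (Or.inr (Or.inr (Or.inr (Or.inr (Or.inl
        (Finset.mem_image.2 ⟨κ, hκ, rfl⟩))))))))
    · rw [notMem_support_iff.1 hκ, map_zero, norm_zero]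
      exact zero_le_one
  have hOτ : ∀ o ∈ O, ‖τ o‖ ≤ 1 := fun o ho =>
    hτ _ (Or.inr (Or.inr (Or.inr (Or.inr (Or.inr (Or.inr (Or.inr ho)))))))
  have hατ : ∀ i, ‖τ (α i)‖ ≤ 1 := fun i =>
    hτ _ (Or.inr (Or.inl (Finset.mem_image.2 ⟨i, Finset.mem_univ i, rfl⟩)))
  have hτ1 : ∀ l (hl : l ∈ Fintype.piFinset C₀), ∀ t ∈ T1 l hl, ‖τ t‖ ≤ 1 := fun l hl t ht =>
    hτ _ (Or.inr (Or.inr (Or.inl (Finset.mem_biUnion.2 ⟨⟨l, hl⟩, Finset.mem_attach _ _, ht⟩))))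
  have hτ2 : ∀ j f (hf : f ∈ Y₀ j), ∀ t ∈ T2 j f hf, ‖τ t‖ ≤ 1 := fun j f hf t ht =>
    hτ _ (Or.inr (Or.inr (Or.inr (Or.inl (Finset.mem_biUnion.2 ⟨j, Finset.mem_univ j,
      Finset.mem_biUnion.2 ⟨⟨f, hf⟩, Finset.mem_attach _ _, ht⟩⟩)))))
  have hτ3 : ∀ j f (hf : f ∈ Y₀ j), ∀ t ∈ T3 j f hf, ‖τ t‖ ≤ 1 := fun j f hf t ht =>
    hτ _ (Or.inr (Or.inr (Or.inr (Or.inr (Or.inl (Finset.mem_biUnion.2 ⟨j, Finset.mem_univ j,
      Finset.mem_biUnion.2 ⟨⟨f, hf⟩, Finset.mem_attach _ _, ht⟩⟩))))))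
  have hτ4 : ∀ j, ∀ t ∈ T4 j, ‖τ t‖ ≤ 1 := fun j t ht =>
    hτ _ (Or.inr (Or.inr (Or.inr (Or.inr (Or.inr (Or.inl (Finset.mem_biUnion.2
      ⟨j, Finset.mem_univ j, ht⟩)))))))
  -- the orbit
  have horb : ∀ n i, ‖τ ((pt F)^[n] α i)‖ ≤ 1 := by
    intro n
    induction n with
    | zero => exact hατ
    | succ n ih =>
      intro i
      rw [Function.iterate_succ_apply']
      exact norm_eval_mv_le τ (F i) (hF i) _ ih
  have horbX : ∀ n, ∀ f ∈ I, eval ((pt F)^[n] α) f = 0 := fun n =>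
    (hX' _).1 (iter_mem hinv hαX n)
  have hW' : ∀ n, n₁ ≤ n → ‖τ (eval ((pt F)^[n] α) (ker P O))‖ < 1 := by
    intro n hn
    obtain ⟨o₁, ho₁, hi⟩ := hn₁ n hn
    rw [← semi_iter hinv hsemi hαX] at hi
    rw [eval_ker, map_prod, norm_prod, ← Finset.mul_prod_erase O _ ho₁]
    have h5 : ∏ o ∈ O.erase o₁, ‖τ (eval ((pt F)^[n] α) P - o)‖ ≤ 1 := by
      refine Finset.prod_le_one (fun _ _ => norm_nonneg _) fun o ho => ?_
      rw [map_sub]
      exact (norm_sub_le_max' _ _).trans (max_le (norm_eval_mv_le τ P hP _ (horb n))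
        (hOτ o (Finset.mem_of_mem_erase ho)))
    exact (mul_le_of_le_one_right (norm_nonneg _) h5).trans_lt hi
  have hsm : ∀ n, n₁ ≤ n → ‖τ (eval ((pt F)^[n] α) Jd)‖ < 1 →
      ∃ j, ∀ f ∈ C₀ j, ‖τ (eval ((pt F)^[n] α) f)‖ < 1 := by
    intro n hn1 hn
    by_contra hcon
    push Not at hcon
    choose l hl hl' using hcon
    have hlp : l ∈ Fintype.piFinset C₀ := Fintype.mem_piFinset.2 hl
    have h5 := h1 l hlp p τ (hτ1 l hlp) _ (horb n) (horbX n) (by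
      rintro g (rfl | rfl)
      · exact hn
      · exact hW' n hn1)
    rw [map_prod, map_prod, norm_prod] at h5
    have h6 : (1 : ℝ) ≤ ∏ j, ‖τ (eval ((pt F)^[n] α) (l j))‖ := by
      calc (1 : ℝ) = ∏ _j : Fin r, (1 : ℝ) := by rw [Finset.prod_const_one]
        _ ≤ _ := Finset.prod_le_prod (fun _ _ => zero_le_one) fun j _ => hl' j
    linarith
  have hsY : ∀ j n, n₁ ≤ n → (∀ f ∈ C₀ j, ‖τ (eval ((pt F)^[n] α) f)‖ < 1) →
      ∀ k, n + m j ≤ k → ∀ f ∈ Y₀ j, ‖τ (eval ((pt F)^[k] α) f)‖ < 1 := by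
    intro j n hn1 hn k hk
    induction k, hk using Nat.le_induction with
    | base =>
      intro f hf
      have h5 := h2 j f hf p τ (hτ2 j f hf) _ (horb n) (horbX n) (by
        rintro g (rfl | hg)
        · exact hW' n hn1
        · exact hn g (Finset.mem_coe.1 hg))
      rw [eval_bind_iter, ← Function.iterate_add_apply, add_comm] at h5
      exact h5
    | succ k hk ih =>
      intro f hf
      have h5 := h3 j f hf p τ (hτ3 j f hf) _ (horb k) (horbX k) (by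
        rintro g (rfl | hg)
        · exact hW' k (by omega)
        · exact ih g (Finset.mem_coe.1 hg))
      rw [eval_bind, ← Function.iterate_succ_apply' (pt F) k α] at h5
      exact h5
  have hnot : ∀ j n, n₁ ≤ n → (∀ f ∈ C₀ j, ‖τ (eval ((pt F)^[n] α) f)‖ < 1) →
      ∀ k, n + m j ≤ k → ¬ ∀ f ∈ C₀ j, ‖τ (eval ((pt F)^[k] α) f)‖ < 1 := by
    intro j n hn1 hn k hk hk'
    have h5 := h4 j p τ (hτ4 j) _ (horb k) (horbX k) (by
      rintro g (rfl | hg | hg)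
      · exact hW' k (by omega)
      · exact hk' g (Finset.mem_coe.1 hg)
      · exact hsY j n hn1 hn k hk g (Finset.mem_coe.1 hg))
    rw [map_one, map_one, norm_one] at h5
    exact lt_irrefl _ h5
  have hbd : ∀ j, ∃ b, ∀ k, b ≤ k → ¬ ∀ f ∈ C₀ j, ‖τ (eval ((pt F)^[k] α) f)‖ < 1 := by
    intro j
    by_cases hex : ∃ n, n₁ ≤ n ∧ ∀ f ∈ C₀ j, ‖τ (eval ((pt F)^[n] α) f)‖ < 1
    · obtain ⟨n, hn1, hn⟩ := hex
      exact ⟨n + m j, hnot j n hn1 hn⟩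
    · rw [not_exists] at hex
      exact ⟨n₁, fun k hk h => hex k ⟨hk, h⟩⟩
  choose b hb using hbd
  refine etale_ret τ F α hF hατ (n₁ + ∑ j, b j) (fun n hn => ?_) V
  by_contra hcon
  have hle1 : ‖τ (jac F ((pt F)^[n] α)).det‖ ≤ 1 := by
    rw [Matrix.det_apply, map_sum]
    refine sum_le _ _ zero_le_one fun σ _ => ?_
    have h5 : ‖τ (∏ i, jac F ((pt F)^[n] α) (σ i) i)‖ ≤ 1 := by
      rw [map_prod, norm_prod]
      refine Finset.prod_le_one (fun _ _ => norm_nonneg _) fun i _ => ?_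
      refine norm_eval_mv_le τ _ (fun κ => ?_) _ (horb n)
      rw [coeff_pderiv, map_mul, norm_mul]
      refine mul_le_one₀ (hF _ _) (norm_nonneg _) ?_
      rw [map_add, map_one, map_natCast]
      have := (norm_int (p := p) ((κ i : ℤ) + 1)).le.trans (Padic.norm_int_le_one _)
      push_cast at this
      exact this
    rcases Int.units_eq_one_or (Equiv.Perm.sign σ) with hσ | hσ
    · rw [hσ, one_smul]
      exact h5
    · rw [hσ, Units.neg_smul, one_smul, map_neg, norm_neg]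
      exact h5
  have hlt := lt_of_le_of_ne hle1 hcon
  obtain ⟨j, hj⟩ := hsm n (by omega) (by
    rw [hJd]
    exact hlt)
  refine hb j n ?_ hj
  have := Finset.single_le_sum (f := b) (fun _ _ => Nat.zero_le _) (Finset.mem_univ j)
  omega

end Pool.Agent.T2H63.DML
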