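import Pool.Agent.T2H63.DML.Main

/-!
Return sets of polynomial skew products with étale fibre maps.
-/

set_option autoImplicit false

namespace Pool.Agent.T2H63.DML

open Polynomial Pool.Agent.H936R2

/-- The skew product `(x, z) ↦ (g(x), H(x, z))`. -/
noncomputable def skew {k : ℕ} (g : ℂ[X]) (H : Fin k → MvPolynomial (Fin (k + 1)) ℂ) :
    Fin (k + 1) → MvPolynomial (Fin (k + 1)) ℂ :=
  Fin.cons (Polynomial.aeval (MvPolynomial.X 0) g) H

theorem eval_aeval_X {k : ℕ} (g : ℂ[X]) (v : Fin (k + 1) → ℂ) :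
    MvPolynomial.eval v (Polynomial.aeval (MvPolynomial.X 0) g : MvPolynomial (Fin (k + 1)) ℂ) =
      g.eval (v 0) := by
  have h1 := Polynomial.hom_eval₂ g (algebraMap ℂ (MvPolynomial (Fin (k + 1)) ℂ))
    (MvPolynomial.eval v) (MvPolynomial.X 0)
  rw [Polynomial.aeval_def, h1, MvPolynomial.eval_X]
  have h2 : (MvPolynomial.eval v).comp (algebraMap ℂ (MvPolynomial (Fin (k + 1)) ℂ)) =
      RingHom.id ℂ := by
    ext z
    · simp
  rw [h2]
  rfl

theorem pderiv_aeval_X {k : ℕ} (g : ℂ[X]) (j : Fin (k + 1)) :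
    MvPolynomial.pderiv j (Polynomial.aeval (MvPolynomial.X 0) g : MvPolynomial (Fin (k + 1)) ℂ) =
      Polynomial.aeval (MvPolynomial.X 0) (derivative g) *
        MvPolynomial.pderiv j (MvPolynomial.X 0 : MvPolynomial (Fin (k + 1)) ℂ) := by
  induction g using Polynomial.induction_on' with
  | add p q hp hq => rw [map_add, map_add, hp, hq, derivative_add, map_add, add_mul]
  | monomial n a =>
    rw [aeval_monomial, derivative_monomial, aeval_monomial, Derivation.leibniz,
      Derivation.leibniz_pow, MvPolynomial.algebraMap_eq, MvPolynomial.pderiv_C, smul_zero, add_zero,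
      smul_eq_mul, nsmul_eq_mul, smul_eq_mul]
    have h1 : (MvPolynomial.C (a * (n : ℂ)) : MvPolynomial (Fin (k + 1)) ℂ) =
        MvPolynomial.C a * (n : MvPolynomial (Fin (k + 1)) ℂ) := by
      rw [MvPolynomial.C_mul]
      simp
    rw [h1]
    ring

theorem det_skew {k : ℕ} (g : ℂ[X]) (H : Fin k → MvPolynomial (Fin (k + 1)) ℂ)
    (v : Fin (k + 1) → ℂ) : (jac (skew g H) v).det = (derivative g).eval (v 0) *
      (Matrix.of fun i j : Fin k => MvPolynomial.eval v (MvPolynomial.pderiv j.succ (H i))).det := by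
  rw [Matrix.det_succ_row_zero, Fin.sum_univ_succ, Finset.sum_eq_zero, add_zero]
  · have h1 : jac (skew g H) v 0 0 = (derivative g).eval (v 0) := by
      change MvPolynomial.eval v (MvPolynomial.pderiv 0
        (Polynomial.aeval (MvPolynomial.X 0) g : MvPolynomial (Fin (k + 1)) ℂ)) = _
      rw [pderiv_aeval_X, map_mul, eval_aeval_X, MvPolynomial.pderiv_X_self, map_one, mul_one]
    rw [h1]
    have h2 : (jac (skew g H) v).submatrix Fin.succ (Fin.succAbove 0) =
        Matrix.of fun i j : Fin k => MvPolynomial.eval v (MvPolynomial.pderiv j.succ (H i)) := by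
      ext i j
      rfl
    rw [h2]
    simp
  · intro j _
    have h1 : jac (skew g H) v 0 j.succ = 0 := by
      change MvPolynomial.eval v (MvPolynomial.pderiv j.succ
        (Polynomial.aeval (MvPolynomial.X 0) g : MvPolynomial (Fin (k + 1)) ℂ)) = _
      rw [pderiv_aeval_X, MvPolynomial.pderiv_X_of_ne (Fin.succ_ne_zero j).symm, mul_zero, map_zero]
    rw [h1]
    ring

theorem pt_skew_zero {k : ℕ} (g : ℂ[X]) (H : Fin k → MvPolynomial (Fin (k + 1)) ℂ)
    (v : Fin (k + 1) → ℂ) : pt (skew g H) v 0 = g.eval (v 0) :=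
  eval_aeval_X g v

theorem iter_skew_zero {k : ℕ} (g : ℂ[X]) (H : Fin k → MvPolynomial (Fin (k + 1)) ℂ)
    (v : Fin (k + 1) → ℂ) (n : ℕ) : (pt (skew g H))^[n] v 0 = (fun y => g.eval y)^[n] (v 0) := by
  induction n with
  | zero => rfl
  | succ n ih => rw [Function.iterate_succ_apply', Function.iterate_succ_apply', pt_skew_zero, ih]

/-- the jacobian determinant of the fibre map -/
noncomputable def fdet {k : ℕ} (H : Fin k → MvPolynomial (Fin (k + 1)) ℂ) (v : Fin (k + 1) → ℂ) : ℂ :=
  (Matrix.of fun i j : Fin k => MvPolynomial.eval v (MvPolynomial.pderiv j.succ (H i))).det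

/-- The case in which the base orbit meets the critical points of `g` finitely often. -/
theorem skew_of_finite {k : ℕ} (g : ℂ[X]) (H : Fin k → MvPolynomial (Fin (k + 1)) ℂ)
    (I : Set (MvPolynomial (Fin (k + 1)) ℂ))
    (X : Set (Fin (k + 1) → ℂ)) (hX : X = {v | ∀ f ∈ I, MvPolynomial.eval v f = 0})
    (hinv : ∀ v ∈ X, pt (skew g H) v ∈ X) (S : Finset ℂ)
    {r : ℕ} (Q : Fin r → MvPolynomial (Fin (k + 1)) ℂ) (h : Fin r → ℂ[X]) (U : Fin r → Finset ℂ)
    (hsemi' : ∀ j, ∀ v ∈ X,
      MvPolynomial.eval (pt (skew g H) v) (Q j) = (h j).eval (MvPolynomial.eval v (Q j)))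
    (hfin : ∀ j, ∀ s ∈ U j, (Set.range fun n => (fun y => (h j).eval y)^[n] s).Finite)
    (hret : ∀ j, ∀ s ∈ U j, {n | (fun y => (h j).eval y)^[n] s ∈ U j}.Finite)
    (hcrit : ∀ v ∈ X, fdet H v = 0 → v 0 ∈ S ∨ ∃ j, MvPolynomial.eval v (Q j) ∈ U j)
    (α : Fin (k + 1) → ℂ) (hαX : α ∈ X)
    (hg : 2 ≤ g.natDegree ∨ (Set.range fun n => (fun y => g.eval y)^[n] (α 0)).Finite)
    (hα : {n | (fun y => g.eval y)^[n] (α 0) ∈ S}.Finite) (hg0 : derivative g ≠ 0)
    (hα' : {n | (derivative g).eval ((fun y => g.eval y)^[n] (α 0)) = 0}.Finite)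
    (V : Set (MvPolynomial (Fin (k + 1)) ℂ)) :
    FinAP {n : ℕ | ∀ f ∈ V, MvPolynomial.eval ((pt (skew g H))^[n] α) f = 0} := by
  classical
  refine general (skew g H) I X hX hinv (MvPolynomial.X 0) g (S ∪ (derivative g).roots.toFinset)
    (fun v _ => ?_) Q h U hsemi' hfin hret (fun v hvX hv => ?_) α hαX ?_ ?_ V
  · rw [MvPolynomial.eval_X, MvPolynomial.eval_X, pt_skew_zero]
  · rw [det_skew] at hv
    rw [MvPolynomial.eval_X, Finset.mem_union, Multiset.mem_toFinset, mem_roots hg0]
    rcases mul_eq_zero.1 hv with h1 | h1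
    · exact Or.inl (Or.inr h1)
    · rcases hcrit v hvX h1 with h2 | h2
      · exact Or.inl (Or.inl h2)
      · exact Or.inr h2
  · rw [MvPolynomial.eval_X]
    exact hg
  · refine (hα.union hα').subset ?_
    intro n hn
    rw [Set.mem_ofPred_eq, MvPolynomial.eval_X, iter_skew_zero, Finset.mem_union,
      Multiset.mem_toFinset, mem_roots hg0] at hn
    rcases hn with h | h
    · exact Or.inl h
    · exact Or.inr h

theorem skew_general {k : ℕ} (g : ℂ[X]) (hg : 2 ≤ g.natDegree)
    (H : Fin k → MvPolynomial (Fin (k + 1)) ℂ) (I : Set (MvPolynomial (Fin (k + 1)) ℂ))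
    (X : Set (Fin (k + 1) → ℂ)) (hX : X = {v | ∀ f ∈ I, MvPolynomial.eval v f = 0})
    (hinv : ∀ v ∈ X, pt (skew g H) v ∈ X) (S : Finset ℂ)
    {r : ℕ} (Q : Fin r → MvPolynomial (Fin (k + 1)) ℂ) (h : Fin r → ℂ[X]) (U : Fin r → Finset ℂ)
    (hsemi' : ∀ j, ∀ v ∈ X,
      MvPolynomial.eval (pt (skew g H) v) (Q j) = (h j).eval (MvPolynomial.eval v (Q j)))
    (hfin : ∀ j, ∀ s ∈ U j, (Set.range fun n => (fun y => (h j).eval y)^[n] s).Finite)
    (hret : ∀ j, ∀ s ∈ U j, {n | (fun y => (h j).eval y)^[n] s ∈ U j}.Finite)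
    (hcrit : ∀ v ∈ X, fdet H v = 0 → v 0 ∈ S ∨ ∃ j, MvPolynomial.eval v (Q j) ∈ U j)
    (α : Fin (k + 1) → ℂ) (hαX : α ∈ X) (hα : {n | (fun y => g.eval y)^[n] (α 0) ∈ S}.Finite)
    (V : Set (MvPolynomial (Fin (k + 1)) ℂ)) :
    FinAP {n : ℕ | ∀ f ∈ V, MvPolynomial.eval ((pt (skew g H))^[n] α) f = 0} := by
  classical
  have hg0 : derivative g ≠ 0 := by
    intro h0
    have := derivative_eq_zero.1 h0
    omega
  by_cases hfinO : (Set.range fun n => (fun y => g.eval y)^[n] (α 0)).Finite
  · -- change `g` outside of the base orbit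
    set O : Finset ℂ := hfinO.toFinset with hO
    have hmem : ∀ n, (fun y => g.eval y)^[n] (α 0) ∈ O := by
      intro n
      rw [hO, Set.Finite.mem_toFinset]
      exact ⟨n, rfl⟩
    have hOinv : ∀ o ∈ O, g.eval o ∈ O := by
      intro o ho
      rw [hO, Set.Finite.mem_toFinset] at ho
      obtain ⟨n, rfl⟩ := ho
      have h1 := hmem (n + 1)
      rw [Function.iterate_succ_apply'] at h1
      exact h1
    set w : ℂ[X] := ∏ o ∈ O, (Polynomial.X - C o) with hw
    have hw0 : ∀ o, w.eval o = 0 ↔ o ∈ O := by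
      intro o
      rw [hw, eval_prod, Finset.prod_eq_zero_iff]
      constructor
      · rintro ⟨o', ho', h1⟩
        rw [eval_sub, eval_X, eval_C, sub_eq_zero] at h1
        rwa [h1]
      · intro ho
        exact ⟨o, ho, by simp⟩
    have hw1 : ∀ o ∈ O, (derivative w).eval o ≠ 0 := by
      intro o ho
      rw [hw, ← Finset.mul_prod_erase O _ ho, derivative_mul, eval_add, eval_mul, eval_mul]
      simp only [derivative_sub, derivative_X, derivative_C, sub_zero, eval_one, one_mul, eval_sub,
        eval_X, eval_C, sub_self, zero_mul, add_zero]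
      rw [eval_prod, Finset.prod_ne_zero_iff]
      intro o' ho'
      rw [eval_sub, eval_X, eval_C, sub_ne_zero]
      exact (Finset.ne_of_mem_erase ho').symm
    obtain ⟨c, hc⟩ := Infinite.exists_notMem_finset
      (O.image fun o => -(derivative g).eval o / (derivative w).eval o)
    set g' : ℂ[X] := g + C c * w with hg'
    have hg'1 : ∀ o ∈ O, g'.eval o = g.eval o := by
      intro o ho
      rw [hg', eval_add, eval_mul, (hw0 o).2 ho, mul_zero, add_zero]
    have hg'2 : ∀ o ∈ O, (derivative g').eval o ≠ 0 := by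
      intro o ho h0
      rw [hg', derivative_add, derivative_C_mul, eval_add, eval_mul, eval_C] at h0
      apply hc
      refine Finset.mem_image.2 ⟨o, ho, ?_⟩
      rw [div_eq_iff (hw1 o ho)]
      linear_combination -h0
    have hpt : ∀ v : Fin (k + 1) → ℂ, v 0 ∈ O → pt (skew g' H) v = pt (skew g H) v := by
      intro v hv
      funext i
      refine Fin.cases ?_ (fun j => rfl) i
      rw [pt_skew_zero, pt_skew_zero]
      exact hg'1 _ hv
    have hit : ∀ n, (pt (skew g' H))^[n] α = (pt (skew g H))^[n] α := by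
      intro n
      induction n with
      | zero => rfl
      | succ n ih =>
        rw [Function.iterate_succ_apply', Function.iterate_succ_apply', ih]
        apply hpt
        rw [iter_skew_zero]
        exact hmem n
    have hit0 : ∀ n, (fun y => g'.eval y)^[n] (α 0) = (fun y => g.eval y)^[n] (α 0) := by
      intro n
      rw [← iter_skew_zero g' H, ← iter_skew_zero g H, hit]
    have hne : derivative g' ≠ 0 := by
      intro h0
      apply hg'2 _ (hmem 0)
      rw [h0, eval_zero]
    -- the union of the fibres over the orbit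
    let X' : Set (Fin (k + 1) → ℂ) := {v | v ∈ X ∧ v 0 ∈ O}
    have hX' : X' = {v | ∀ f ∈ insert
        (Polynomial.aeval (MvPolynomial.X 0) w : MvPolynomial (Fin (k + 1)) ℂ) I,
          MvPolynomial.eval v f = 0} := by
      ext v
      rw [Set.mem_ofPred_eq, Set.mem_ofPred_eq, Set.forall_mem_insert, eval_aeval_X, hw0, hX,
        Set.mem_ofPred_eq, and_comm]
    have h1 := skew_of_finite g' H _ X' hX' (fun v hv => ?_) S Q h U (fun j v hv => ?_) hfin hret
      (fun v hv => hcrit v hv.1) α ⟨hαX, hmem 0⟩ (Or.inr (by simpa only [hit0] using hfinO))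
      (by simpa only [hit0] using hα) hne (by
        have h2 : {n | (derivative g').eval ((fun y => g'.eval y)^[n] (α 0)) = 0} = ∅ := by
          rw [Set.eq_empty_iff_forall_notMem]
          intro n hn
          rw [Set.mem_ofPred_eq, hit0] at hn
          exact hg'2 _ (hmem n) hn
        rw [h2]
        exact Set.finite_empty) V
    · simpa only [hit] using h1
    · refine ⟨?_, ?_⟩
      · rw [hpt v hv.2]
        exact hinv v hv.1
      · rw [pt_skew_zero, hg'1 _ hv.2]
        exact hOinv _ hv.2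
    · rw [hpt v hv.2]
      exact hsemi' j v hv.1
  · refine skew_of_finite g H I X hX hinv S Q h U hsemi' hfin hret hcrit α hαX (Or.inl hg) hα hg0
      ?_ V
    have hinj : Function.Injective fun n => (fun y => g.eval y)^[n] (α 0) := by
      intro a b hab
      by_contra hne
      apply hfinO
      rcases lt_or_gt_of_ne hne with h | h
      · exact range_finite_of_eq h hab
      · exact range_finite_of_eq h hab.symm
    refine ((finite_setOfPred_isRoot hg0).preimage hinj.injOn).subset ?_
    intro n hn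
    exact hn

end Pool.Agent.T2H63.DML
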