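import Pool.Agent.T2H63.DML.Emb

/-!
Nonunits of finitely generated rings of complex numbers are small at some embedding into the
algebraic closure of some `ℚ_p`.
-/

set_option autoImplicit false

namespace Pool.Agent.T2H63.DML

open Polynomial Pool.Agent.H936R2 Pool.Agent.TH838.PR Pool.Agent.Y199.DM

/-- a conjugate is the image under an endomorphism of `ℂ` -/
theorem exists_conj (Q : Type) [Field Q] [Algebra Q ℂ] {b b' : ℂ} (hb : IsIntegral Q b)
    (hb' : aeval b' (minpoly Q b) = 0) :
    ∃ σ : ℂ →+* ℂ, (∀ q, σ (algebraMap Q ℂ q) = algebraMap Q ℂ q) ∧ σ b = b' := by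
  obtain ⟨s, hs⟩ := exists_isTranscendenceBasis Q ℂ
  let E := IntermediateField.adjoin Q {b}
  let pb := IntermediateField.adjoin.powerBasis hb
  let φ : E →ₐ[Q] ℂ := pb.lift b' (by
    rw [IntermediateField.adjoin.powerBasis_gen hb, IntermediateField.minpoly_gen Q b]
    exact hb')
  have hφ : φ (IntermediateField.AdjoinSimple.gen Q b) = b' := by
    have h2 : IntermediateField.AdjoinSimple.gen Q b = pb.gen :=
      (IntermediateField.adjoin.powerBasis_gen hb).symm
    rw [h2]
    exact pb.lift_gen b' _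
  have hfd : FiniteDimensional Q E := IntermediateField.adjoin.finiteDimensional hb
  have hEalg : Algebra.IsAlgebraic Q E := Algebra.IsAlgebraic.of_finite Q E
  obtain ⟨σ, hσE, -⟩ := exists_extension' (Q := Q) (E := E) (C := ℂ) hEalg φ hs _ hs.1
  refine ⟨σ, fun q => ?_, ?_⟩
  · have h1 := hσE (algebraMap Q E q)
    rw [AlgHom.commutes] at h1
    exact h1
  · have h1 := hσE (IntermediateField.AdjoinSimple.gen Q b)
    rw [hφ] at h1
    rw [← h1]
    exact congrArg σ (IntermediateField.AdjoinSimple.algebraMap_gen Q b).symm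

theorem one_le_prod {p : ℕ} [hp : Fact p.Prime] (τ : ℂ →+* PadicAlgCl p) (s : Multiset ℂ)
    (hs : ∀ r ∈ s, 1 ≤ ‖τ r‖) : 1 ≤ ‖τ s.prod‖ := by
  induction s using Multiset.induction_on with
  | empty => simp
  | cons r s ih =>
    rw [Multiset.prod_cons, map_mul, norm_mul]
    exact one_le_mul_of_one_le_of_one_le (hs r (Multiset.mem_cons_self r s))
      (ih fun a ha => hs a (Multiset.mem_cons_of_mem ha))

/-- A nonzero element which is integral over `ℤ[y]` is small at some embedding, if the constant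
coefficient of its minimal polynomial is. -/
theorem small_integral {m : ℕ} (y : Fin m → ℂ) (hy : AlgebraicIndependent ℚ y) (M : ℕ) {b : ℂ}
    (hb0 : b ≠ 0) (hb : (ev y).IsIntegralElem b) :
    (∃ (p : ℕ) (_ : Fact p.Prime) (τ : ℂ →+* PadicAlgCl p), M < p ∧ (∀ j, ‖τ (y j)‖ ≤ 1) ∧
      ‖τ b‖ < 1) ∨
    ∃ (c : ℤ) (q : (MvPolynomial (Fin m) ℤ)[X]), c ≠ 0 ∧ (∀ p : ℕ, p.Prime → (p : ℤ) ∣ c → p ≤ M) ∧
      eval₂ (ev y) b q * b = c := by
  classical
  let A := MvPolynomial (Fin m) ℤ
  let iA : Algebra A ℂ := (ev y).toAlgebra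
  have hyZ : AlgebraicIndependent ℤ y := hy.restrictScalars (Int.cast_injective (α := ℚ))
  have hinj : Function.Injective (algebraMap A ℂ) := hyZ
  have hfaith : FaithfulSMul A ℂ := (faithfulSMul_iff_algebraMap_injective A ℂ).2 hinj
  let Q := FractionRing A
  let iQ : Algebra Q ℂ := FractionRing.liftAlgebra A ℂ
  have hst : IsScalarTower A Q ℂ := FractionRing.isScalarTower_liftAlgebra A ℂ
  have hbA : IsIntegral A b := hb
  have hbQ : IsIntegral Q b := hbA.tower_top
  set μ : A[X] := minpoly A b with hμ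
  have hμQ : minpoly Q b = μ.map (algebraMap A Q) :=
    minpoly.isIntegrallyClosed_eq_field_fractions' Q hbA
  have hc0 : μ.coeff 0 ≠ 0 := by
    intro h0
    apply minpoly.coeff_zero_ne_zero hbQ hb0
    rw [hμQ, coeff_map, h0, map_zero]
  have hmon : μ.Monic := minpoly.monic hbA
  rcases small_poly y hy M (μ.coeff 0) with ⟨p, hp, τ₀, hMp, hτ₀, hlt⟩ | ⟨c, hc, hcM⟩
  · left
    -- a small conjugate
    have hsp : (μ.map (algebraMap A ℂ)).Splits := IsAlgClosed.splits _
    have h1 := hsp.coeff_zero_eq_prod_roots_of_monic (hmon.map _)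
    rw [coeff_map] at h1
    have h2 : ‖τ₀ (μ.map (algebraMap A ℂ)).roots.prod‖ < 1 := by
      have h3 : ‖τ₀ (algebraMap A ℂ (μ.coeff 0))‖ < 1 := hlt
      rw [h1, map_mul, norm_mul, map_pow, map_neg, map_one, norm_pow, norm_neg, norm_one, one_pow,
        one_mul] at h3
      exact h3
    obtain ⟨b', hb', hlt'⟩ : ∃ b' ∈ (μ.map (algebraMap A ℂ)).roots, ‖τ₀ b'‖ < 1 := by
      by_contra hcon
      push Not at hcon
      exact absurd (one_le_prod τ₀ _ hcon) (not_le.2 h2)
    have hroot : aeval b' (minpoly Q b) = 0 := by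
      have h3 : (μ.map (algebraMap A ℂ)).eval b' = 0 := (mem_roots'.1 hb').2
      rw [hμQ, aeval_map_algebraMap, aeval_def, ← eval_map]
      exact h3
    obtain ⟨σ, hσ, hσb⟩ := exists_conj Q hbQ hroot
    refine ⟨p, hp, τ₀.comp σ, hMp, fun j => ?_, ?_⟩
    · have h3 : σ (y j) = y j := by
        have h4 := hσ (algebraMap A Q (MvPolynomial.X j))
        rw [← IsScalarTower.algebraMap_apply A Q ℂ] at h4
        have h5 : algebraMap A ℂ (MvPolynomial.X j) = y j := ev_X y j
        rwa [h5] at h4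
      rw [RingHom.comp_apply, h3]
      exact hτ₀ j
    · rw [RingHom.comp_apply, hσb]
      exact hlt'
  · right
    refine ⟨-c, μ.divX, ?_, ?_, ?_⟩
    · intro h0
      apply hc0
      rw [hc, show c = 0 by linarith, MvPolynomial.C_0]
    · intro p hp hdvd
      exact hcM p hp ((dvd_neg).1 hdvd)
    · have h1 : eval₂ (ev y) b μ = 0 := minpoly.aeval A b
      rw [← divX_mul_X_add μ, eval₂_add, eval₂_mul_X, eval₂_C, hc, ev_C] at h1
      push_cast
      linear_combination h1

theorem exists_small (T : Finset ℂ) : ∃ T' : Finset ℂ, T ⊆ T' ∧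
    ∀ a ∈ Subring.closure (T' : Set ℂ), a ≠ 0 → a⁻¹ ∉ Subring.closure (T' : Set ℂ) →
    ∃ (p : ℕ) (_ : Fact p.Prime) (τ : ℂ →+* PadicAlgCl p), (∀ t ∈ T', ‖τ t‖ ≤ 1) ∧ ‖τ a‖ < 1 := by
  classical
  obtain ⟨m, y, hy, D, hD, hint⟩ := noether_int T
  set F : ℕ := D.factorial with hF
  have hF0 : (F : ℂ) ≠ 0 := by
    rw [hF]
    exact_mod_cast D.factorial_ne_zero
  have hDF : D ∣ F := Nat.dvd_factorial hD le_rfl
  let T' : Finset ℂ := T ∪ (Finset.univ.image y ∪ {(F : ℂ)⁻¹})
  have hyT : ∀ j, y j ∈ (T' : Set ℂ) := fun j => by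
    simp only [T', Finset.mem_coe, Finset.mem_union, Finset.mem_image, Finset.mem_univ, true_and]
    exact Or.inr (Or.inl ⟨j, rfl⟩)
  have hFT : (F : ℂ)⁻¹ ∈ (T' : Set ℂ) := by
    simp [T']
  -- every element of the ring is integral after a multiplication by a power of `F`
  have hden : ∀ a ∈ Subring.closure (T' : Set ℂ), ∃ e : ℕ, (ev y).IsIntegralElem ((F : ℂ) ^ e * a) := by
    have hpow : ∀ e : ℕ, (ev y).IsIntegralElem ((F : ℂ) ^ e) := by
      intro e
      have h1 : ((F : ℂ) ^ e) = ev y (MvPolynomial.C ((F : ℤ) ^ e)) := by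
        rw [ev_C]
        push_cast
        rfl
      rw [h1]
      exact RingHom.isIntegralElem_map _
    have hup : ∀ (a : ℂ) (e e' : ℕ), (ev y).IsIntegralElem ((F : ℂ) ^ e * a) →
        (ev y).IsIntegralElem ((F : ℂ) ^ (e' + e) * a) := by
      intro a e e' h
      rw [pow_add, mul_assoc]
      exact RingHom.IsIntegralElem.mul _ (hpow e') h
    intro a ha
    induction ha using Subring.closure_induction with
    | mem x hx =>
      simp only [T', Finset.mem_coe, Finset.mem_union, Finset.mem_image, Finset.mem_univ, true_and,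
        Finset.mem_singleton] at hx
      rcases hx with hx | ⟨j, rfl⟩ | rfl
      · refine ⟨1, ?_⟩
        obtain ⟨k, hk⟩ := hDF
        have h1 : (F : ℂ) ^ 1 * x = ev y (MvPolynomial.C (k : ℤ)) * ((D : ℂ) * x) := by
          rw [ev_C, hk]
          push_cast
          ring
        rw [h1]
        exact RingHom.IsIntegralElem.mul _ (RingHom.isIntegralElem_map _) (hint x hx)
      · refine ⟨0, ?_⟩
        rw [pow_zero, one_mul, ← ev_X y j]
        exact RingHom.isIntegralElem_map _
      · refine ⟨1, ?_⟩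
        rw [pow_one, mul_inv_cancel₀ hF0]
        exact RingHom.isIntegralElem_one _
    | zero =>
      refine ⟨0, ?_⟩
      rw [mul_zero]
      exact RingHom.isIntegralElem_zero _
    | one =>
      refine ⟨0, ?_⟩
      rw [mul_one]
      exact hpow 0
    | add x z _ _ hx hz =>
      obtain ⟨e1, h1⟩ := hx
      obtain ⟨e2, h2⟩ := hz
      refine ⟨e2 + e1, ?_⟩
      rw [mul_add]
      refine RingHom.IsIntegralElem.add _ (hup _ _ _ h1) ?_
      rw [add_comm]
      exact hup _ _ _ h2
    | mul x z _ _ hx hz =>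
      obtain ⟨e1, h1⟩ := hx
      obtain ⟨e2, h2⟩ := hz
      refine ⟨e1 + e2, ?_⟩
      rw [show (F : ℂ) ^ (e1 + e2) * (x * z) = ((F : ℂ) ^ e1 * x) * ((F : ℂ) ^ e2 * z) by ring]
      exact RingHom.IsIntegralElem.mul _ h1 h2
    | neg x _ hx =>
      obtain ⟨e1, h1⟩ := hx
      refine ⟨e1, ?_⟩
      rw [mul_neg]
      exact RingHom.IsIntegralElem.neg _ h1
  refine ⟨T', Finset.subset_union_left, fun a ha ha0 hinv => ?_⟩
  obtain ⟨e, he⟩ := hden a ha
  have hb0 : (F : ℂ) ^ e * a ≠ 0 := mul_ne_zero (pow_ne_zero _ hF0) ha0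
  rcases small_integral y hy D hb0 he with ⟨p, hp, τ, hpD, hτ, hlt⟩ | ⟨c, q, hc0, hc, hq⟩
  · have hFp : ‖τ ((F : ℕ) : ℂ)‖ = 1 := by
      rw [map_natCast]
      refine le_antisymm ?_ ?_
      · have := (norm_int (p := p) (F : ℤ)).le.trans (Padic.norm_int_le_one _)
        exact_mod_cast this
      · by_contra hcon
        push Not at hcon
        have h1 : ‖((F : ℤ) : PadicAlgCl p)‖ < 1 := by exact_mod_cast hcon
        have h2 : p ∣ F := by exact_mod_cast dvd_of_norm_lt h1
        have h3 := (hp.out.dvd_factorial).1 h2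
        omega
    refine ⟨p, hp, τ, fun t ht => ?_, ?_⟩
    · obtain ⟨e', he'⟩ := hden t (Subring.subset_closure (Finset.mem_coe.2 ht))
      have h1 := norm_le_of_integral τ hτ he'
      rwa [map_mul, norm_mul, map_pow, norm_pow, hFp, one_pow, one_mul] at h1
    · rwa [map_mul, norm_mul, map_pow, norm_pow, hFp, one_pow, one_mul] at hlt
  · exfalso
    apply hinv
    -- `c` is invertible in the ring
    have hcinv : (c : ℂ)⁻¹ ∈ Subring.closure (T' : Set ℂ) := by
      have hdvd : ∃ k : ℕ, c.natAbs ∣ F ^ k := by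
        refine ⟨c.natAbs, ?_⟩
        rw [← Nat.factorization_le_iff_dvd (Int.natAbs_ne_zero.2 hc0)
          (pow_ne_zero _ (by rw [hF]; exact D.factorial_ne_zero))]
        intro l
        by_cases hl : l.Prime ∧ l ∣ c.natAbs
        · have h1 : l ≤ D := hc l hl.1 (Int.natCast_dvd.2 hl.2)
          have h2 : 1 ≤ F.factorization l := by
            refine (hl.1.dvd_iff_one_le_factorization (by rw [hF]; exact D.factorial_ne_zero)).1 ?_
            rw [hF]
            exact (hl.1.dvd_factorial).2 h1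
          have h3 : c.natAbs.factorization l ≤ c.natAbs :=
            (Nat.factorization_lt l (Int.natAbs_ne_zero.2 hc0)).le
          rw [Nat.factorization_pow]
          simp only [Finsupp.smul_apply, smul_eq_mul]
          nlinarith
        · have h1 : c.natAbs.factorization l = 0 := by
            rcases not_and_or.1 hl with h | h
            · exact Nat.factorization_eq_zero_of_not_prime _ h
            · exact Nat.factorization_eq_zero_of_not_dvd h
          rw [h1]
          exact Nat.zero_le _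
      obtain ⟨k, hk⟩ := hdvd
      have hk' : c ∣ (F : ℤ) ^ k := by
        have := Int.natAbs_dvd.1 (Int.natCast_dvd_natCast.2 hk)
        exact_mod_cast this
      obtain ⟨d, hd⟩ := hk'
      have hcC : (c : ℂ) ≠ 0 := by exact_mod_cast hc0
      have h1 : (c : ℂ)⁻¹ = (d : ℂ) * ((F : ℂ)⁻¹) ^ k := by
        have h2 : (F : ℂ) ^ k = (c : ℂ) * d := by exact_mod_cast congrArg (fun z : ℤ => (z : ℂ)) hd
        rw [inv_pow, h2, mul_inv]
        have hd0 : (d : ℂ) ≠ 0 := by
          intro h0
          rw [h0, mul_zero] at h2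
          exact pow_ne_zero _ hF0 h2
        field_simp
      rw [h1]
      exact Subring.mul_mem _ (intCast_mem _ _)
        (Subring.pow_mem _ (Subring.subset_closure hFT) _)
    have hevmem : ∀ r : MvPolynomial (Fin m) ℤ, ev y r ∈ Subring.closure (T' : Set ℂ) := by
      intro r
      induction r using MvPolynomial.induction_on with
      | C a =>
        rw [ev_C]
        exact intCast_mem _ _
      | add q r hq hr =>
        rw [map_add]
        exact Subring.add_mem _ hq hr
      | mul_X q j hq =>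
        rw [map_mul, ev_X]
        exact Subring.mul_mem _ hq (Subring.subset_closure (hyT j))
    have hFmem : (F : ℂ) ∈ Subring.closure (T' : Set ℂ) := natCast_mem _ _
    have hbmem : (F : ℂ) ^ e * a ∈ Subring.closure (T' : Set ℂ) :=
      Subring.mul_mem _ (Subring.pow_mem _ hFmem _) ha
    have hqmem : eval₂ (ev y) ((F : ℂ) ^ e * a) q ∈ Subring.closure (T' : Set ℂ) := by
      rw [eval₂_eq_sum_range]
      exact Subring.sum_mem _ fun i _ => Subring.mul_mem _ (hevmem _) (Subring.pow_mem _ hbmem _)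
    have hcC : (c : ℂ) ≠ 0 := by exact_mod_cast hc0
    have h1 : a⁻¹ = (c : ℂ)⁻¹ * (eval₂ (ev y) ((F : ℂ) ^ e * a) q * (F : ℂ) ^ e) := by
      have h2 : (c : ℂ) = (eval₂ (ev y) ((F : ℂ) ^ e * a) q * (F : ℂ) ^ e) * a := by
        rw [← hq]
        ring
      rw [eq_comm, inv_mul_eq_div, div_eq_iff hcC, eq_comm, inv_mul_eq_div, div_eq_iff ha0]
      exact h2
    rw [h1]
    exact Subring.mul_mem _ hcinv (Subring.mul_mem _ hqmem (Subring.pow_mem _ hFmem _))

end Pool.Agent.T2H63.DML
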